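import Pool.Agent.Run7.h734.CM.Poly

/-! The real inequality behind the Campbell majorization problem. -/

set_option autoImplicit false
set_option linter.unusedVariables false

namespace Pool.Agent.Run7.h734.CM

lemma yineq {l n k y : ℝ} (hl0 : 0 < l) (hl : 1 ≤ 3 * l ^ 2) (hn : l ≤ n) (hln : l * n ≤ 1)
    (hk0 : 0 ≤ k) (hk1 : k ≤ 1)
    (hy : y * ((1 + k) * (2 * l + (1 + 3 * l ^ 2) * k * n)) = 2 * (1 + l * k * n) * (l + k * n)) :
    l * n * ((1 + k * n ^ 2) * y - k * l * n * y ^ 2) * (1 + l ^ 2) ^ 2 ≤ l ^ 2 * (n ^ 2 + 1) ^ 2 := by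
  obtain ⟨m, rfl⟩ : ∃ m, n = l * m := ⟨n / l, by field_simp⟩
  have hm : 1 ≤ m := by
    by_contra h
    push Not at h
    nlinarith
  have hsm : l ^ 2 * m ≤ 1 := by nlinarith
  have h := main (l ^ 2) m k hl hm hsm hk0 hk1
  set q : ℝ := (1 + k) * (2 + (1 + 3 * l ^ 2) * k * m) with hq
  set Y : ℝ := 2 * (1 + l ^ 2 * k * m) * (1 + k * m) with hY
  have hq0 : 0 < q := by
    rw [hq]; positivity
  have hyq : y * q = Y := by
    have h1 : l * (y * q) = l * Y := by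
      rw [hq, hY]
      linear_combination hy
    exact mul_left_cancel₀ hl0.ne' h1
  rw [← hyq] at h
  have h2 : m * (1 + l ^ 2) ^ 2 * ((1 + k * l ^ 2 * m ^ 2) * y - k * l ^ 2 * m * y ^ 2) * q ^ 2
      ≤ (l ^ 2 * m ^ 2 + 1) ^ 2 * q ^ 2 := by
    refine le_trans (le_of_eq ?_) h
    ring
  have h3 := le_of_mul_le_mul_right h2 (by positivity)
  have h4 := mul_le_mul_of_nonneg_left h3 (by positivity : (0:ℝ) ≤ l ^ 2)
  refine le_trans (le_of_eq ?_) (le_trans h4 (le_of_eq ?_)) <;> ring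

lemma yhalf {l n k y : ℝ} (hl0 : 0 < l) (hl : 1 ≤ 3 * l ^ 2) (hn : l ≤ n) (hln : l * n ≤ 1)
    (hk0 : 0 ≤ k) (hk1 : k ≤ 1)
    (hy : y * ((1 + k) * (2 * l + (1 + 3 * l ^ 2) * k * n)) = 2 * (1 + l * k * n) * (l + k * n)) :
    2 * l * k * n * y ≤ 1 + k * n ^ 2 := by
  obtain ⟨m, rfl⟩ : ∃ m, n = l * m := ⟨n / l, by field_simp⟩
  have hm : 1 ≤ m := by
    by_contra h
    push Not at h
    nlinarith
  have hsm : l ^ 2 * m ≤ 1 := by nlinarith
  obtain ⟨h, hh⟩ : ∃ h, h = l ^ 2 * m := ⟨_, rfl⟩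
  have hh1 : h ≤ 1 := by rw [hh]; exact hsm
  have hh0 : 0 ≤ h := by rw [hh]; positivity
  have hm0 : 0 ≤ m := by linarith
  set q : ℝ := (1 + k) * (2 + (1 + 3 * l ^ 2) * k * m) with hq
  have hq0 : 0 < q := by
    rw [hq]; positivity
  have hyq : y * q = 2 * (1 + l ^ 2 * k * m) * (1 + k * m) := by
    have h1 : l * (y * q) = l * (2 * (1 + l ^ 2 * k * m) * (1 + k * m)) := by
      rw [hq]
      linear_combination hy
    exact mul_left_cancel₀ hl0.ne' h1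
  have hqh : q = (1 + k) * (2 + k * m + 3 * k * h) := by rw [hq, hh]; ring
  have hyq' : y * q = 2 * (1 + k * h) * (1 + k * m) := by rw [hyq, hh]; ring
  have e1 : 4 * k * h * (1 + k * h) * (1 + k * m) ≤ 4 * k * h * (1 + k) * (1 + k * m) := by
    have : k * h ≤ k := by nlinarith
    have h0 : 0 ≤ 4 * k * h * (1 + k * m) := by positivity
    nlinarith
  have e2 : 4 * k * h * (1 + k * m) ≤ (1 + k * h * m) * (2 + k * m + 3 * k * h) := by
    have t1 : 0 ≤ k * (m - h) := mul_nonneg hk0 (by linarith)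
    have t2 : 0 ≤ 2 * (k * h * m) * (1 - k) := mul_nonneg (by positivity) (by linarith)
    have t3 : 0 ≤ k ^ 2 * h * (m - 1) ^ 2 := by positivity
    have t4 : k ^ 2 * h ≤ 1 := by
      have : k ^ 2 ≤ 1 := by nlinarith
      nlinarith
    have t5 : 0 ≤ 3 * k ^ 2 * h ^ 2 * m := by positivity
    nlinarith
  have e3 : 4 * k * h * (1 + k * h) * (1 + k * m) ≤ (1 + k * h * m) * q := by
    rw [hqh]
    have := mul_le_mul_of_nonneg_left e2 (by linarith : (0:ℝ) ≤ 1 + k)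
    nlinarith
  have e4 : 2 * k * h * y * q ≤ (1 + k * h * m) * q := by
    refine le_trans (le_of_eq ?_) e3
    linear_combination (2 * k * h) * hyq'
  have e5 := le_of_mul_le_mul_right e4 hq0
  refine le_trans (le_of_eq ?_) (le_trans e5 (le_of_eq ?_))
  · rw [hh]; ring
  · rw [hh]; ring

/-- The core inequality. -/
lemma core {C R k n a S L : ℝ} (hR : 0 < R) (hCR : C ^ 2 - R ^ 2 = 1) (hC0 : 0 < C)
    (hl : 1 ≤ 3 * (C - R) ^ 2) (hk0 : 0 ≤ k) (hk1 : k ≤ 1) (hn : 0 < n) (han : a ≤ n) (ha : 0 < a)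
    (hD : n ^ 2 + 1 ≤ 2 * C * a) (hS0 : 0 ≤ S)
    (hS : S ^ 2 = 1 + 2 * C * k * a + C ^ 2 * k ^ 2 * n ^ 2) (hL0 : 0 ≤ L)
    (hL : L ^ 2 = (1 + k * n ^ 2) ^ 2 - 4 * k * a ^ 2) :
    ((1 + k) * L + 2 * C * k * a - k * (1 + n ^ 2)) * (S + (C - R) * k * n)
      ≤ (1 + k ^ 2 * n ^ 2 + 2 * C * k * a) * (S - (C - R) * k * n) := by
  obtain ⟨l, hl'⟩ : ∃ l, l = C - R := ⟨_, rfl⟩
  have hCeq : C = R + l := by linarith
  have hlR : l * (2 * R + l) = 1 := by rw [hCeq] at hCR; nlinarith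
  have hl0 : 0 < l := by
    by_contra h
    push Not at h
    nlinarith
  rw [← hl'] at hl ⊢
  have h2C : 2 * C * l = 1 + l ^ 2 := by rw [hCeq]; nlinarith
  have h2R : 2 * R * l = 1 - l ^ 2 := by nlinarith
  have hln1 : n ^ 2 - 2 * C * n + 1 ≤ 0 := by nlinarith
  have hsq : (n - C) ^ 2 ≤ R ^ 2 := by nlinarith
  have habs := abs_le_of_sq_le_sq' hsq hR.le
  have hln : l ≤ n := by linarith [habs.1]
  have hln' : l * n ≤ 1 := by
    have : n ≤ 2 * R + l := by linarith [habs.2]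
    nlinarith
  -- S
  set Den : ℝ := 1 + k ^ 2 * n ^ 2 + 2 * C * k * a with hDen
  have hDen0 : 0 < Den := by positivity
  have hSD : Den = S ^ 2 - R ^ 2 * (k * n) ^ 2 := by
    rw [hS, hDen]
    have : C ^ 2 = R ^ 2 + 1 := by linarith
    rw [this]; ring
  obtain ⟨K, hK⟩ : ∃ K, K = k * n := ⟨_, rfl⟩
  have hK0 : 0 ≤ K := by rw [hK]; positivity
  have hSle : S ≤ 1 + C * K := by
    apply abs_le_of_sq_le_sq' _ (by positivity) |>.2
    rw [hS, hK]
    nlinarith [mul_nonneg (mul_nonneg hC0.le hk0) (sub_nonneg.2 han)]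
  have hS0' : 0 < S := by
    rcases hS0.lt_or_eq with h | h
    · exact h
    · exfalso
      rw [← h] at hS
      nlinarith [mul_nonneg (mul_nonneg hC0.le hk0) ha.le, sq_nonneg (C * k * n)]
  obtain ⟨σ, hσ⟩ : ∃ σ, σ = S + l * K := ⟨_, rfl⟩
  have hσ0 : 0 < σ := by rw [hσ]; positivity
  obtain ⟨S0, hS0e⟩ : ∃ S0, S0 = 1 + C * K := ⟨_, rfl⟩
  have hS0p : 0 < S0 := by rw [hS0e]; positivity
  rw [← hS0e] at hSle
  -- y and y0
  obtain ⟨y, hy⟩ : ∃ y, y = Den / ((1 + k) * σ) := ⟨_, rfl⟩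
  obtain ⟨y0, hy0⟩ : ∃ y0, y0 = (S0 ^ 2 - R ^ 2 * K ^ 2) / ((1 + k) * (S0 + l * K)) := ⟨_, rfl⟩
  have h1k : 0 < 1 + k := by linarith
  have hyσ : y * ((1 + k) * σ) = Den := by rw [hy]; field_simp
  have hy0σ : y0 * ((1 + k) * (S0 + l * K)) = S0 ^ 2 - R ^ 2 * K ^ 2 := by
    rw [hy0]
    have : (1 + k) * (S0 + l * K) ≠ 0 := by positivity
    field_simp
  have hypos : 0 < y := by rw [hy]; positivity
  have hyy0 : y ≤ y0 := by
    rw [hy, hy0, div_le_div_iff₀ (by positivity) (by positivity), hSD, hσ, ← hK]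
    have e : (S0 ^ 2 - R ^ 2 * K ^ 2) * ((1 + k) * (S + l * K))
        - (S ^ 2 - R ^ 2 * K ^ 2) * ((1 + k) * (S0 + l * K))
        = (1 + k) * ((S0 - S) * (S * S0 + l * K * (S0 + S) + R ^ 2 * K ^ 2)) := by ring
    have : 0 ≤ (1 + k) * ((S0 - S) * (S * S0 + l * K * (S0 + S) + R ^ 2 * K ^ 2)) := by
      apply mul_nonneg h1k.le
      apply mul_nonneg (by linarith)
      positivity
    linarith
  have hy0eq : y0 * ((1 + k) * (2 * l + (1 + 3 * l ^ 2) * k * n))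
      = 2 * (1 + l * k * n) * (l + k * n) := by
    have e1 : 2 * l * (S0 + l * K) = 2 * l + (1 + 3 * l ^ 2) * k * n := by
      rw [hS0e, hK]
      linear_combination (k * n) * h2C
    have e2 : 2 * l * (S0 ^ 2 - R ^ 2 * K ^ 2) = 2 * (1 + l * k * n) * (l + k * n) := by
      rw [hS0e, hK]
      have e3 : (1 + C * (k * n)) ^ 2 - R ^ 2 * (k * n) ^ 2
          = 1 + 2 * C * (k * n) + (C ^ 2 - R ^ 2) * (k * n) ^ 2 := by ring
      rw [e3, hCR]
      linear_combination (2 * (k * n)) * h2C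
    calc y0 * ((1 + k) * (2 * l + (1 + 3 * l ^ 2) * k * n))
        = 2 * l * (y0 * ((1 + k) * (S0 + l * K))) := by rw [← e1]; ring
      _ = 2 * l * (S0 ^ 2 - R ^ 2 * K ^ 2) := by rw [hy0σ]
      _ = _ := e2
  have hA := yineq hl0 hl hln hln' hk0 hk1 hy0eq
  have hB := yhalf hl0 hl hln hln' hk0 hk1 hy0eq
  -- lower bound for a
  have haL : l * (n ^ 2 + 1) ≤ (1 + l ^ 2) * a := by nlinarith
  have haL2 : l ^ 2 * (n ^ 2 + 1) ^ 2 ≤ (1 + l ^ 2) ^ 2 * a ^ 2 := by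
    have h7 := pow_le_pow_left₀ (by positivity) haL 2
    calc l ^ 2 * (n ^ 2 + 1) ^ 2 = (l * (n ^ 2 + 1)) ^ 2 := by ring
      _ ≤ ((1 + l ^ 2) * a) ^ 2 := h7
      _ = _ := by ring
  have hC1 : l * n * ((1 + k * n ^ 2) * y0 - k * l * n * y0 ^ 2) ≤ a ^ 2 := by
    have h5 : l * n * ((1 + k * n ^ 2) * y0 - k * l * n * y0 ^ 2) * (1 + l ^ 2) ^ 2
        ≤ a ^ 2 * (1 + l ^ 2) ^ 2 := by linarith
    exact le_of_mul_le_mul_right h5 (by positivity)
  have hC2 : (1 + k * n ^ 2) * y - k * l * n * y ^ 2 ≤ (1 + k * n ^ 2) * y0 - k * l * n * y0 ^ 2 := by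
    have e : (1 + k * n ^ 2) * y0 - k * l * n * y0 ^ 2 - ((1 + k * n ^ 2) * y - k * l * n * y ^ 2)
        = (y0 - y) * ((1 + k * n ^ 2) - k * l * n * (y + y0)) := by ring
    have h6 : k * l * n * (y + y0) ≤ 1 + k * n ^ 2 := by
      have : 0 ≤ k * l * n * (y0 - y) := mul_nonneg (by positivity) (by linarith)
      nlinarith
    have := mul_nonneg (sub_nonneg.2 hyy0) (sub_nonneg.2 h6)
    linarith
  have hC3 : l * n * ((1 + k * n ^ 2) * y - k * l * n * y ^ 2) ≤ a ^ 2 :=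
    le_trans (mul_le_mul_of_nonneg_left hC2 (by positivity)) hC1
  have hM0 : 0 ≤ (1 + k * n ^ 2) - 2 * l * k * n * y := by
    have : 0 ≤ 2 * l * k * n * (y0 - y) := mul_nonneg (by positivity) (by linarith)
    nlinarith
  have hLle : L ≤ (1 + k * n ^ 2) - 2 * l * k * n * y := by
    apply abs_le_of_sq_le_sq' _ hM0 |>.2
    rw [hL]
    nlinarith [mul_le_mul_of_nonneg_left hC3 (by linarith : (0:ℝ) ≤ 4 * k)]
  -- conclusion
  have hfin : (1 + k) * L * σ ≤ (1 + k) * ((1 + k * n ^ 2) - 2 * l * k * n * y) * σ := by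
    have := mul_le_mul_of_nonneg_left hLle h1k.le
    exact mul_le_mul_of_nonneg_right this hσ0.le
  have e5 : (1 + k) * ((1 + k * n ^ 2) - 2 * l * k * n * y) * σ
      = (1 + k) * (1 + k * n ^ 2) * σ - 2 * l * k * n * Den := by
    rw [← hyσ]; ring
  have hσ' : S + l * k * n = σ := by rw [hσ, hK]; ring
  have hσ'' : S - l * k * n = σ - 2 * l * k * n := by rw [hσ, hK]; ring
  rw [hσ', hσ'']
  have e6 : ((1 + k) * L + 2 * C * k * a - k * (1 + n ^ 2)) * σ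
      = (1 + k) * L * σ + (Den - (1 + k) * (1 + k * n ^ 2)) * σ := by rw [hDen]; ring
  rw [e6]
  nlinarith

end Pool.Agent.Run7.h734.CM
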