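import Mathlib

/-! Two point growth theorem for locally univalent functions of order at most `α`. -/

set_option autoImplicit false
set_option linter.unusedVariables false

open Complex Metric Set Filter Topology

namespace Pool.Agent.Run7.h734.CM

open scoped ComplexConjugate

/-- numerator of the geodesic -/
noncomputable def nn (z e : ℂ) (s : ℝ) : ℂ := (Real.exp (2 * s) : ℂ) * (z + e) + (z - e)

/-- denominator of the geodesic -/
noncomputable def mm (z e : ℂ) (s : ℝ) : ℂ :=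
  (Real.exp (2 * s) : ℂ) * (1 + conj z * e) + (1 - conj z * e)

/-- hyperbolic geodesic through `z` -/
noncomputable def gam (z e : ℂ) (s : ℝ) : ℂ := nn z e s / mm z e s

/-- its velocity -/
noncomputable def dd (z e : ℂ) (s : ℝ) : ℂ :=
  4 * (Real.exp (2 * s) : ℂ) * e * (1 - conj z * z) / (mm z e s) ^ 2

/-- its acceleration -/
noncomputable def dd' (z e : ℂ) (s : ℝ) : ℂ :=
  8 * (Real.exp (2 * s) : ℂ) * e * (1 - conj z * z) *
    (mm z e s - 2 * ((Real.exp (2 * s) : ℂ) * (1 + conj z * e))) / (mm z e s) ^ 3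

lemma conj_mul_self' (z : ℂ) : conj z * z = ((‖z‖ ^ 2 : ℝ) : ℂ) := by
  rw [mul_comm, Complex.mul_conj, Complex.normSq_eq_norm_sq]

lemma mm_nn {z e : ℂ} (he : ‖e‖ = 1) (s : ℝ) :
    conj (mm z e s) * mm z e s - conj (nn z e s) * nn z e s
      = 4 * (Real.exp (2 * s) : ℂ) * (1 - conj z * z) := by
  have he' : e * conj e = 1 := by
    rw [mul_comm, conj_mul_self', he]; simp
  have h1 : conj (mm z e s) = (Real.exp (2 * s) : ℂ) * (1 + z * conj e) + (1 - z * conj e) := by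
    simp only [mm, map_add, map_mul, map_sub, map_one, Complex.conj_conj, Complex.conj_ofReal]
  have h2 : conj (nn z e s) = (Real.exp (2 * s) : ℂ) * (conj z + conj e) + (conj z - conj e) := by
    simp only [nn, map_add, map_mul, map_sub, Complex.conj_ofReal]
  rw [h1, h2]
  simp only [mm, nn]
  generalize (Real.exp (2 * s) : ℂ) = u
  linear_combination (u ^ 2 * (z * conj z - 1) + 2 * u * (1 - z * conj z) + (z * conj z - 1)) * he'

lemma mm_nn_norm {z e : ℂ} (he : ‖e‖ = 1) (s : ℝ) :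
    ‖mm z e s‖ ^ 2 - ‖nn z e s‖ ^ 2 = 4 * Real.exp (2 * s) * (1 - ‖z‖ ^ 2) := by
  have h := mm_nn (z := z) he s
  rw [conj_mul_self', conj_mul_self', conj_mul_self'] at h
  exact_mod_cast h

lemma mm_pos {z e : ℂ} (hz : ‖z‖ < 1) (he : ‖e‖ = 1) (s : ℝ) : 0 < ‖mm z e s‖ := by
  have h := mm_nn_norm (z := z) he s
  have h1 : 0 < 4 * Real.exp (2 * s) * (1 - ‖z‖ ^ 2) := by
    have : 0 < 1 - ‖z‖ ^ 2 := by nlinarith [norm_nonneg z]
    have := Real.exp_pos (2 * s)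
    positivity
  by_contra hcon
  have h2 : ‖mm z e s‖ = 0 := le_antisymm (not_lt.1 hcon) (norm_nonneg _)
  rw [h2] at h
  nlinarith [norm_nonneg (nn z e s)]

lemma mm_ne {z e : ℂ} (hz : ‖z‖ < 1) (he : ‖e‖ = 1) (s : ℝ) : mm z e s ≠ 0 :=
  norm_pos_iff.1 (mm_pos hz he s)

lemma gam_norm {z e : ℂ} (hz : ‖z‖ < 1) (he : ‖e‖ = 1) (s : ℝ) :
    1 - ‖gam z e s‖ ^ 2 = 4 * Real.exp (2 * s) * (1 - ‖z‖ ^ 2) / ‖mm z e s‖ ^ 2 := by
  have h := mm_nn_norm (z := z) he s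
  have hp := mm_pos hz he s
  rw [← h, gam, norm_div]
  field_simp

lemma gam_pos {z e : ℂ} (hz : ‖z‖ < 1) (he : ‖e‖ = 1) (s : ℝ) : 0 < 1 - ‖gam z e s‖ ^ 2 := by
  rw [gam_norm hz he]
  have : 0 < 1 - ‖z‖ ^ 2 := by nlinarith [norm_nonneg z]
  have := Real.exp_pos (2 * s)
  have hp := mm_pos hz he s
  positivity

lemma gam_lt {z e : ℂ} (hz : ‖z‖ < 1) (he : ‖e‖ = 1) (s : ℝ) : ‖gam z e s‖ < 1 := by
  have := gam_pos hz he s
  nlinarith [norm_nonneg (gam z e s)]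

lemma dd_norm {z e : ℂ} (hz : ‖z‖ < 1) (he : ‖e‖ = 1) (s : ℝ) :
    ‖dd z e s‖ = 1 - ‖gam z e s‖ ^ 2 := by
  rw [gam_norm hz he, dd, norm_div, norm_pow]
  congr 1
  have h1 : (1 - conj z * z) = ((1 - ‖z‖ ^ 2 : ℝ) : ℂ) := by
    rw [conj_mul_self']; push_cast; ring
  have hp : 0 ≤ 1 - ‖z‖ ^ 2 := by nlinarith [norm_nonneg z]
  rw [h1, norm_mul, norm_mul, norm_mul, he, Complex.norm_real, Complex.norm_real,
    Real.norm_of_nonneg (Real.exp_pos _).le, Real.norm_of_nonneg hp]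
  simp

lemma hasDerivAt_u (s : ℝ) :
    HasDerivAt (fun s : ℝ => (Real.exp (2 * s) : ℂ)) (2 * (Real.exp (2 * s) : ℂ)) s := by
  have h1 : HasDerivAt (fun s : ℝ => Real.exp (2 * s)) (Real.exp (2 * s) * (2 * 1)) s :=
    ((hasDerivAt_id s).const_mul 2).exp
  have h2 := h1.ofReal_comp
  refine h2.congr_deriv ?_
  push_cast
  ring

lemma hasDerivAt_nn (z e : ℂ) (s : ℝ) :
    HasDerivAt (nn z e) (2 * (Real.exp (2 * s) : ℂ) * (z + e)) s :=
  ((hasDerivAt_u s).mul_const (z + e)).add_const (z - e)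

lemma hasDerivAt_mm (z e : ℂ) (s : ℝ) :
    HasDerivAt (mm z e) (2 * (Real.exp (2 * s) : ℂ) * (1 + conj z * e)) s :=
  ((hasDerivAt_u s).mul_const (1 + conj z * e)).add_const (1 - conj z * e)

lemma hasDerivAt_gam {z e : ℂ} (hz : ‖z‖ < 1) (he : ‖e‖ = 1) (s : ℝ) :
    HasDerivAt (gam z e) (dd z e s) s := by
  have h := (hasDerivAt_nn z e s).div (hasDerivAt_mm z e s) (mm_ne hz he s)
  refine HasDerivAt.congr_deriv (f := gam z e) h ?_
  rw [dd]
  congr 1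
  simp only [mm, nn]
  generalize (Real.exp (2 * s) : ℂ) = u
  ring

lemma hasDerivAt_dd {z e : ℂ} (hz : ‖z‖ < 1) (he : ‖e‖ = 1) (s : ℝ) :
    HasDerivAt (dd z e) (dd' z e s) s := by
  have hne := mm_ne hz he s
  have h1 : HasDerivAt (fun s : ℝ => 4 * (Real.exp (2 * s) : ℂ) * e * (1 - conj z * z))
      (4 * (2 * (Real.exp (2 * s) : ℂ)) * e * (1 - conj z * z)) s :=
    (((hasDerivAt_u s).const_mul 4).mul_const e).mul_const (1 - conj z * z)
  have h2 := (hasDerivAt_mm z e s).pow 2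
  have h := h1.div h2 (pow_ne_zero 2 hne)
  refine HasDerivAt.congr_deriv (f := dd z e) h ?_
  rw [dd']
  simp only [Pi.pow_apply]
  generalize (Real.exp (2 * s) : ℂ) = u
  generalize hm : mm z e s = m at *
  rw [div_eq_div_iff (pow_ne_zero 2 (pow_ne_zero 2 hne)) (pow_ne_zero 3 hne)]
  push_cast
  ring

lemma dd'_eq {z e : ℂ} (hz : ‖z‖ < 1) (he : ‖e‖ = 1) (s : ℝ) :
    dd' z e s * ((1 - ‖gam z e s‖ ^ 2 : ℝ) : ℂ) = - 2 * conj (gam z e s) * (dd z e s) ^ 2 := by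
  have hne := mm_ne hz he s
  have hne' : conj (mm z e s) ≠ 0 := (map_ne_zero _).2 hne
  have he' : e * conj e = 1 := by
    rw [mul_comm, conj_mul_self', he]; simp
  have h0 : ((1 - ‖gam z e s‖ ^ 2 : ℝ) : ℂ)
      = 4 * (Real.exp (2 * s) : ℂ) * (1 - conj z * z) / (conj (mm z e s) * mm z e s) := by
    rw [gam_norm hz he, conj_mul_self', conj_mul_self']
    push_cast
    ring
  have h1 : conj (nn z e s) * e = -(mm z e s - 2 * ((Real.exp (2 * s) : ℂ) * (1 + conj z * e))) := by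
    have h2 : conj (nn z e s) = (Real.exp (2 * s) : ℂ) * (conj z + conj e) + (conj z - conj e) := by
      simp only [nn, map_add, map_mul, map_sub, Complex.conj_ofReal]
    rw [h2, mm]
    generalize (Real.exp (2 * s) : ℂ) = u
    linear_combination (u - 1) * he'
  have h3 : conj (gam z e s) = conj (nn z e s) / conj (mm z e s) := by
    rw [gam, map_div₀]
  rw [h0, h3, dd', dd]
  have h4 : mm z e s - 2 * ((Real.exp (2 * s) : ℂ) * (1 + conj z * e)) = - (conj (nn z e s) * e) := by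
    rw [h1]; ring
  rw [h4]
  generalize (Real.exp (2 * s) : ℂ) = u
  generalize mm z e s = m at *
  generalize conj m = m' at *
  field_simp
  ring

/-- derivative of `F' (γ) γ'` along the geodesic -/
lemma omega_bound {F : ℂ → ℂ} {α : ℝ} (hd : DifferentiableOn ℂ F (ball 0 1))
    (hne : ∀ ζ ∈ ball (0:ℂ) 1, deriv F ζ ≠ 0)
    (hα : ∀ ζ ∈ ball (0:ℂ) 1,
      ‖-conj ζ + (1 - (‖ζ‖ : ℂ) ^ 2) * deriv (deriv F) ζ / (2 * deriv F ζ)‖ ≤ α)
    {z e : ℂ} (hz : ‖z‖ < 1) (he : ‖e‖ = 1) (s : ℝ) :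
    HasDerivAt (fun s => deriv F (gam z e s) * dd z e s)
        (deriv (deriv F) (gam z e s) * dd z e s * dd z e s + deriv F (gam z e s) * dd' z e s) s ∧
      ‖deriv (deriv F) (gam z e s) * dd z e s * dd z e s + deriv F (gam z e s) * dd' z e s‖
        ≤ 2 * α * ‖deriv F (gam z e s) * dd z e s‖ := by
  have hgb : gam z e s ∈ ball (0:ℂ) 1 := by
    rw [mem_ball_zero_iff]; exact gam_lt hz he s
  have hd' : DifferentiableOn ℂ (deriv F) (ball 0 1) := hd.deriv isOpen_ball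
  constructor
  · have h1 : HasDerivAt (deriv F) (deriv (deriv F) (gam z e s)) (gam z e s) :=
      (hd'.differentiableAt (isOpen_ball.mem_nhds hgb)).hasDerivAt
    have h2 : HasDerivAt (fun s => deriv F (gam z e s))
        (deriv (deriv F) (gam z e s) * dd z e s) s := by
      have h3 := (h1.hasFDerivAt.restrictScalars ℝ).comp_hasDerivAt s (hasDerivAt_gam hz he s)
      refine HasDerivAt.congr_deriv h3 ?_
      simp [mul_comm]
    exact h2.mul (hasDerivAt_dd hz he s)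
  · have hp := gam_pos hz he s
    have h1 := dd'_eq hz he s
    have h2 := dd_norm hz he s
    have h3 := hα _ hgb
    have h4 := hne _ hgb
    have hcast : ((1 - ‖gam z e s‖ ^ 2 : ℝ) : ℂ) = 1 - (‖gam z e s‖ : ℂ) ^ 2 := by push_cast; ring
    have h5 : (deriv (deriv F) (gam z e s) * dd z e s * dd z e s
          + deriv F (gam z e s) * dd' z e s) * ((1 - ‖gam z e s‖ ^ 2 : ℝ) : ℂ)
        = 2 * deriv F (gam z e s) * (dd z e s) ^ 2 *
          (-conj (gam z e s) + (1 - (‖gam z e s‖ : ℂ) ^ 2) * deriv (deriv F) (gam z e s) /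
            (2 * deriv F (gam z e s))) := by
      have h6 : 2 * deriv F (gam z e s) * (dd z e s) ^ 2 *
          (-conj (gam z e s) + (1 - (‖gam z e s‖ : ℂ) ^ 2) * deriv (deriv F) (gam z e s) /
            (2 * deriv F (gam z e s)))
          = deriv F (gam z e s) * (- 2 * conj (gam z e s) * (dd z e s) ^ 2)
            + (dd z e s) ^ 2 * (1 - (‖gam z e s‖ : ℂ) ^ 2) * deriv (deriv F) (gam z e s) := by
        field_simp
      rw [h6, ← h1, ← hcast]
      ring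
    have h7 := congrArg norm h5
    rw [norm_mul, Complex.norm_real, Real.norm_of_nonneg hp.le, norm_mul, norm_mul, norm_mul,
      norm_pow, h2] at h7
    rw [norm_mul, h2]
    have h8 : ‖(2:ℂ)‖ = 2 := by simp
    rw [h8] at h7
    have h9 : 2 * ‖deriv F (gam z e s)‖ * (1 - ‖gam z e s‖ ^ 2) ^ 2 *
          ‖-conj (gam z e s) + (1 - (‖gam z e s‖ : ℂ) ^ 2) * deriv (deriv F) (gam z e s) /
            (2 * deriv F (gam z e s))‖
        ≤ 2 * ‖deriv F (gam z e s)‖ * (1 - ‖gam z e s‖ ^ 2) ^ 2 * α :=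
      mul_le_mul_of_nonneg_left h3 (by positivity)
    rw [← h7] at h9
    have h10 : 2 * ‖deriv F (gam z e s)‖ * (1 - ‖gam z e s‖ ^ 2) ^ 2 * α
        = (2 * α * (‖deriv F (gam z e s)‖ * (1 - ‖gam z e s‖ ^ 2))) * (1 - ‖gam z e s‖ ^ 2) := by
      ring
    rw [h10] at h9
    exact le_of_mul_le_mul_right h9 hp

lemma gam_zero {z e : ℂ} : gam z e 0 = z := by
  simp only [gam, nn, mm, mul_zero, Real.exp_zero, Complex.ofReal_one, one_mul]
  have h1 : z + e + (z - e) = z * 2 := by ring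
  have h2 : (1 + conj z * e) + (1 - conj z * e) = 2 := by ring
  rw [h1, h2]
  simp

lemma growth_geo {F : ℂ → ℂ} {α : ℝ} (hd : DifferentiableOn ℂ F (ball 0 1))
    (hne : ∀ ζ ∈ ball (0:ℂ) 1, deriv F ζ ≠ 0)
    (hα : ∀ ζ ∈ ball (0:ℂ) 1,
      ‖-conj ζ + (1 - (‖ζ‖ : ℂ) ^ 2) * deriv (deriv F) ζ / (2 * deriv F ζ)‖ ≤ α)
    {z e : ℂ} (hz : ‖z‖ < 1) (he : ‖e‖ = 1) {s : ℝ} (hs : 0 ≤ s) :
    (1 - ‖gam z e s‖ ^ 2) * ‖deriv F (gam z e s)‖
      ≤ (1 - ‖z‖ ^ 2) * ‖deriv F z‖ * Real.exp (2 * α * s) := by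
  set ω : ℝ → ℂ := fun s => deriv F (gam z e s) * dd z e s with hω
  have h1 := norm_le_gronwallBound_of_norm_deriv_right_le (f := ω)
    (f' := fun s => deriv (deriv F) (gam z e s) * dd z e s * dd z e s
      + deriv F (gam z e s) * dd' z e s) (δ := ‖ω 0‖) (K := 2 * α) (ε := 0) (a := 0) (b := s)
    (fun t _ => (omega_bound hd hne hα hz he t).1.continuousAt.continuousWithinAt)
    (fun t _ => (omega_bound hd hne hα hz he t).1.hasDerivWithinAt)
    le_rfl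
    (fun t _ => by rw [add_zero]; exact (omega_bound hd hne hα hz he t).2) s
    (right_mem_Icc.2 hs)
  rw [gronwallBound_ε0, sub_zero] at h1
  simp only [hω, norm_mul, dd_norm hz he, gam_zero] at h1
  linarith

/-- Two point growth theorem. -/
theorem growth {F : ℂ → ℂ} {α : ℝ} (hd : DifferentiableOn ℂ F (ball 0 1))
    (hne : ∀ ζ ∈ ball (0:ℂ) 1, deriv F ζ ≠ 0)
    (hα : ∀ ζ ∈ ball (0:ℂ) 1,
      ‖-conj ζ + (1 - (‖ζ‖ : ℂ) ^ 2) * deriv (deriv F) ζ / (2 * deriv F ζ)‖ ≤ α)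
    {z w : ℂ} (hz : ‖z‖ < 1) (hw : ‖w‖ < 1) :
    ‖w - z‖ < ‖1 - conj z * w‖ ∧
    (1 - ‖w‖ ^ 2) * ‖deriv F w‖ ≤ (1 - ‖z‖ ^ 2) * ‖deriv F z‖ *
      ((‖1 - conj z * w‖ + ‖w - z‖) / (‖1 - conj z * w‖ - ‖w - z‖)) ^ α := by
  have hid : ‖1 - conj z * w‖ ^ 2 = ‖w - z‖ ^ 2 + (1 - ‖z‖ ^ 2) * (1 - ‖w‖ ^ 2) := by
    simp only [Complex.sq_norm, Complex.normSq_apply]
    simp
    ring
  have hpos : 0 < (1 - ‖z‖ ^ 2) * (1 - ‖w‖ ^ 2) := by
    apply mul_pos
    · nlinarith [norm_nonneg z]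
    · nlinarith [norm_nonneg w]
  have hlt : ‖w - z‖ < ‖1 - conj z * w‖ := by
    nlinarith [norm_nonneg (w - z), norm_nonneg (1 - conj z * w)]
  refine ⟨hlt, ?_⟩
  have hX : 0 < ‖1 - conj z * w‖ := lt_of_le_of_lt (norm_nonneg _) hlt
  have hXne : 1 - conj z * w ≠ 0 := norm_pos_iff.1 hX
  -- direction
  set ζ := (w - z) / (1 - conj z * w) with hζ
  have hζn : ‖ζ‖ = ‖w - z‖ / ‖1 - conj z * w‖ := by rw [hζ, norm_div]
  obtain ⟨e, he, hζe⟩ : ∃ e : ℂ, ‖e‖ = 1 ∧ ζ = (‖ζ‖ : ℂ) * e := by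
    by_cases h0 : ζ = 0
    · exact ⟨1, by simp, by simp [h0]⟩
    · have hn : ‖ζ‖ ≠ 0 := norm_ne_zero_iff.2 h0
      refine ⟨ζ / (‖ζ‖ : ℂ), ?_, ?_⟩
      · rw [norm_div, Complex.norm_real, norm_norm, div_self hn]
      · have : (‖ζ‖ : ℂ) ≠ 0 := by exact_mod_cast hn
        field_simp
  set ρ := ‖ζ‖ with hρ
  have hρ0 : 0 ≤ ρ := norm_nonneg _
  have hρ1 : ρ < 1 := by rw [hζn, div_lt_one hX]; exact hlt
  have hq : 0 < (1 + ρ) / (1 - ρ) := by
    apply div_pos <;> linarith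
  have hq1 : 1 ≤ (1 + ρ) / (1 - ρ) := by
    rw [le_div_iff₀ (by linarith)]; linarith
  set s := Real.log ((1 + ρ) / (1 - ρ)) / 2 with hs
  have hs0 : 0 ≤ s := by
    rw [hs]; exact div_nonneg (Real.log_nonneg hq1) (by norm_num)
  have hu : Real.exp (2 * s) = (1 + ρ) / (1 - ρ) := by
    have : 2 * s = Real.log ((1 + ρ) / (1 - ρ)) := by rw [hs]; ring
    rw [this, Real.exp_log hq]
  have hgw : gam z e s = w := by
    have hr : (1 - (ρ:ℂ)) ≠ 0 := by
      have : (1 - ρ) ≠ 0 := by linarith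
      exact_mod_cast this
    have h1 : nn z e s = 2 * (z + ζ) / (1 - (ρ:ℂ)) := by
      rw [nn, hu, hζe]
      push_cast
      field_simp
      ring
    have h2 : mm z e s = 2 * (1 + conj z * ζ) / (1 - (ρ:ℂ)) := by
      rw [mm, hu, hζe]
      push_cast
      field_simp
      ring
    have h3 : z + ζ = w * (1 - conj z * z) / (1 - conj z * w) := by
      rw [eq_div_iff hXne, hζ, add_mul, div_mul_cancel₀ _ hXne]; ring
    have h4 : 1 + conj z * ζ = (1 - conj z * z) / (1 - conj z * w) := by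
      rw [eq_div_iff hXne, hζ, add_mul, mul_assoc, div_mul_cancel₀ _ hXne]; ring
    have h5 : (1 - conj z * z) ≠ 0 := by
      rw [conj_mul_self']
      have : (1 - ‖z‖ ^ 2 : ℝ) ≠ 0 := by nlinarith [norm_nonneg z]
      exact_mod_cast this
    rw [gam, h1, h2, h3, h4]
    generalize (1 - conj z * z) = A at *
    generalize (1 - conj z * w) = B at *
    field_simp
  have h := growth_geo hd hne hα hz he hs0
  rw [hgw] at h
  have hE : Real.exp (2 * α * s)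
      = ((‖1 - conj z * w‖ + ‖w - z‖) / (‖1 - conj z * w‖ - ‖w - z‖)) ^ α := by
    have h1 : (‖1 - conj z * w‖ + ‖w - z‖) / (‖1 - conj z * w‖ - ‖w - z‖) = (1 + ρ) / (1 - ρ) := by
      have h2 : ‖w - z‖ = ρ * ‖1 - conj z * w‖ := by rw [hζn, div_mul_cancel₀ _ hX.ne']
      rw [h2]
      have h3 : ‖1 - conj z * w‖ + ρ * ‖1 - conj z * w‖ = (1 + ρ) * ‖1 - conj z * w‖ := by ring
      have h4 : ‖1 - conj z * w‖ - ρ * ‖1 - conj z * w‖ = (1 - ρ) * ‖1 - conj z * w‖ := by ring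
      rw [h3, h4, mul_div_mul_right _ _ hX.ne']
    rw [h1, Real.rpow_def_of_pos hq]
    congr 1
    rw [hs]; ring
  rw [hE] at h
  exact h

end Pool.Agent.Run7.h734.CM
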