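import Mathlib

/-! Schwarz-Pick and a second order version for self-maps of the disc fixing the origin. -/

set_option autoImplicit false
set_option linter.unusedVariables false

open Complex Metric Set Filter Topology

namespace Pool.Agent.Run7.h734.CM

open scoped ComplexConjugate

lemma mob_id (z ζ : ℂ) :
    ‖1 + conj z * ζ‖ ^ 2 = ‖ζ + z‖ ^ 2 + (1 - ‖z‖ ^ 2) * (1 - ‖ζ‖ ^ 2) := by
  simp only [Complex.sq_norm, Complex.normSq_apply]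
  simp
  ring

lemma mob_ne {z ζ : ℂ} (hz : ‖z‖ < 1) (hζ : ‖ζ‖ ≤ 1) : 1 + conj z * ζ ≠ 0 := by
  intro h
  have h1 : ‖conj z * ζ‖ = 1 := by
    have : conj z * ζ = -1 := by linear_combination h
    rw [this]; simp
  rw [norm_mul, Complex.norm_conj] at h1
  nlinarith [norm_nonneg z, norm_nonneg ζ]

lemma mob_lt {z ζ : ℂ} (hz : ‖z‖ < 1) (hζ : ‖ζ‖ < 1) : ‖(ζ + z) / (1 + conj z * ζ)‖ < 1 := by
  rw [norm_div, div_lt_one (norm_pos_iff.2 (mob_ne hz hζ.le))]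
  have h := mob_id z ζ
  have h1 : 0 < (1 - ‖z‖ ^ 2) * (1 - ‖ζ‖ ^ 2) := by
    apply mul_pos
    · nlinarith [norm_nonneg z]
    · nlinarith [norm_nonneg ζ]
  nlinarith [norm_nonneg (ζ + z), norm_nonneg (1 + conj z * ζ)]

lemma mob_le {b u : ℂ} (hb : ‖b‖ < 1) (hu : ‖u‖ ≤ 1) : ‖(u - b) / (1 - conj b * u)‖ ≤ 1 := by
  have hb' : ‖-b‖ < 1 := by rwa [norm_neg]
  have hne := mob_ne hb' hu
  have e : 1 - conj b * u = 1 + conj (-b) * u := by rw [map_neg]; ring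
  rw [e, norm_div, div_le_one (norm_pos_iff.2 hne)]
  have h := mob_id (-b) u
  have h1 : 0 ≤ (1 - ‖-b‖ ^ 2) * (1 - ‖u‖ ^ 2) := by
    apply mul_nonneg
    · nlinarith [norm_nonneg (-b)]
    · nlinarith [norm_nonneg u]
  have h2 : ‖u - b‖ = ‖u + -b‖ := by rw [sub_eq_add_neg]
  rw [h2]
  nlinarith [norm_nonneg (u + -b), norm_nonneg (1 + conj (-b) * u)]

lemma sp_lt {g : ℂ → ℂ} (hd : DifferentiableOn ℂ g (ball 0 1))
    (hb : ∀ ζ ∈ ball (0:ℂ) 1, ‖g ζ‖ < 1) {z : ℂ} (hz : ‖z‖ < 1) :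
    ‖deriv g z‖ * (1 - ‖z‖ ^ 2) ≤ 1 - ‖g z‖ ^ 2 := by
  have hzb : z ∈ ball (0:ℂ) 1 := by simpa using hz
  set b := g z with hbdef
  have hb1 : ‖b‖ < 1 := hb z hzb
  set φ : ℂ → ℂ := fun ζ => (ζ + z) / (1 + conj z * ζ) with hφ
  have hφmaps : ∀ ζ ∈ ball (0:ℂ) 1, φ ζ ∈ ball (0:ℂ) 1 := by
    intro ζ hζ
    rw [mem_ball_zero_iff]
    exact mob_lt hz (by simpa using hζ)
  have hφ0 : φ 0 = z := by simp [hφ]
  have hφd : ∀ ζ ∈ ball (0:ℂ) 1, DifferentiableAt ℂ φ ζ := by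
    intro ζ hζ
    have hζ' : ‖ζ‖ < 1 := by simpa using hζ
    exact (by fun_prop : DifferentiableAt ℂ (fun ζ => ζ + z) ζ).div
      (by fun_prop) (mob_ne hz hζ'.le)
  have hφ' : HasDerivAt φ ((1 - ‖z‖ ^ 2 : ℝ) : ℂ) 0 := by
    have h1 : HasDerivAt (fun ζ : ℂ => ζ + z) 1 0 := (hasDerivAt_id 0).add_const z
    have h2 : HasDerivAt (fun ζ : ℂ => 1 + conj z * ζ) (conj z) 0 := by
      simpa using ((hasDerivAt_id (0:ℂ)).const_mul (conj z)).const_add 1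
    have h3 : HasDerivAt φ _ 0 := h1.div h2 (by simp)
    refine h3.congr_deriv ?_
    have : (z : ℂ) * conj z = ((‖z‖ ^ 2 : ℝ) : ℂ) := by
      rw [Complex.mul_conj, Complex.normSq_eq_norm_sq]
    have e3 : ((1 - ‖z‖ ^ 2 : ℝ) : ℂ) = 1 - z * conj z := by rw [this]; push_cast; ring
    rw [e3]
    simp
  set G : ℂ → ℂ := fun ζ => g (φ ζ) with hG
  have hGle : ∀ ζ ∈ ball (0:ℂ) 1, ‖G ζ‖ < 1 := fun ζ hζ => hb _ (hφmaps ζ hζ)
  have hgat : ∀ ζ ∈ ball (0:ℂ) 1, DifferentiableAt ℂ g ζ := fun ζ hζ =>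
    hd.differentiableAt (isOpen_ball.mem_nhds hζ)
  have hGd : ∀ ζ ∈ ball (0:ℂ) 1, DifferentiableAt ℂ G ζ := fun ζ hζ =>
    (hgat _ (hφmaps ζ hζ)).comp ζ (hφd ζ hζ)
  have hG0 : G 0 = b := by simp [hG, hφ0, hbdef]
  have hG' : HasDerivAt G (deriv g z * ((1 - ‖z‖ ^ 2 : ℝ) : ℂ)) 0 := by
    have h1 : HasDerivAt g (deriv g z) (φ 0) := by
      rw [hφ0]; exact (hgat z hzb).hasDerivAt
    exact h1.comp 0 hφ'
  have hne : ∀ ζ ∈ ball (0:ℂ) 1, 1 - conj b * G ζ ≠ 0 := by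
    intro ζ hζ
    have := mob_ne (z := -b) (ζ := G ζ) (by rwa [norm_neg]) (hGle ζ hζ).le
    simpa [sub_eq_add_neg] using this
  set H : ℂ → ℂ := fun ζ => (G ζ - b) / (1 - conj b * G ζ) with hH
  have hHd : DifferentiableOn ℂ H (ball 0 1) := by
    intro ζ hζ
    exact (((hGd ζ hζ).sub_const b).div ((hGd ζ hζ).const_mul _ |>.const_sub 1)
      (hne ζ hζ)).differentiableWithinAt
  have hH0 : H 0 = 0 := by simp [hH, hG0]
  have hHm : MapsTo H (ball 0 1) (closedBall (H 0) 1) := by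
    intro ζ hζ
    rw [hH0, mem_closedBall_zero_iff]
    exact mob_le hb1 (hGle ζ hζ).le
  have hle := norm_deriv_le_one_of_mapsTo_ball hHd hHm one_pos
  have h0b : (0:ℂ) ∈ ball (0:ℂ) 1 := by simp
  have hH' : HasDerivAt H (deriv g z * ((1 - ‖z‖ ^ 2 : ℝ) : ℂ) / ((1 - ‖b‖ ^ 2 : ℝ) : ℂ)) 0 := by
    have h1 : HasDerivAt H _ 0 :=
      (hG'.sub_const b).div ((hG'.const_mul (conj b)).const_sub 1) (hne 0 h0b)
    refine h1.congr_deriv ?_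
    rw [hG0]
    have e1 : conj b * b = ((‖b‖ ^ 2 : ℝ) : ℂ) := by
      rw [mul_comm, Complex.mul_conj, Complex.normSq_eq_norm_sq]
    have e2 : (1 - conj b * b) = ((1 - ‖b‖ ^ 2 : ℝ) : ℂ) := by rw [e1]; push_cast; ring
    have h3 : ((1 - ‖b‖ ^ 2 : ℝ) : ℂ) ≠ 0 := by
      have : (1 - ‖b‖ ^ 2 : ℝ) ≠ 0 := by nlinarith [norm_nonneg b]
      exact_mod_cast this
    rw [e2]
    field_simp
    ring
  rw [hH'.deriv, norm_div, norm_mul, Complex.norm_real, Complex.norm_real, Real.norm_eq_abs,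
    Real.norm_eq_abs] at hle
  have hp1 : 0 < 1 - ‖z‖ ^ 2 := by nlinarith [norm_nonneg z]
  have hp2 : 0 < 1 - ‖b‖ ^ 2 := by nlinarith [norm_nonneg b]
  rw [abs_of_pos hp1, abs_of_pos hp2, div_le_one hp2] at hle
  exact hle

/-- Schwarz-Pick, derivative form. -/
lemma sp {g : ℂ → ℂ} (hd : DifferentiableOn ℂ g (ball 0 1))
    (hb : ∀ ζ ∈ ball (0:ℂ) 1, ‖g ζ‖ ≤ 1) {z : ℂ} (hz : ‖z‖ < 1) :
    ‖deriv g z‖ * (1 - ‖z‖ ^ 2) ≤ 1 - ‖g z‖ ^ 2 := by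
  set A := ‖deriv g z‖ * (1 - ‖z‖ ^ 2) with hA
  have hp1 : 0 < 1 - ‖z‖ ^ 2 := by nlinarith [norm_nonneg z]
  have hA0 : 0 ≤ A := by positivity
  have hzb : z ∈ ball (0:ℂ) 1 := by simpa using hz
  have hg1 := hb z hzb
  have hgn := norm_nonneg (g z)
  have key : ∀ t : ℝ, 0 < t → t < 1 → t * A ≤ 1 - t ^ 2 * ‖g z‖ ^ 2 := by
    intro t ht0 ht1
    have h1 := sp_lt (g := fun ζ => (t : ℂ) * g ζ) (hd.const_mul _) (fun ζ hζ => by
      rw [norm_mul, Complex.norm_real, Real.norm_eq_abs, abs_of_pos ht0]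
      have := hb ζ hζ
      have := norm_nonneg (g ζ)
      nlinarith) hz
    have h2 : deriv (fun ζ => (t : ℂ) * g ζ) z = (t : ℂ) * deriv g z :=
      deriv_const_mul _ (hd.differentiableAt (isOpen_ball.mem_nhds hzb))
    rw [h2, norm_mul, norm_mul, Complex.norm_real, Real.norm_eq_abs, abs_of_pos ht0, mul_pow] at h1
    rw [hA]
    linarith
  refine le_of_forall_pos_le_add (fun ε hε => ?_)
  obtain ⟨t, ht0, ht1, ht⟩ : ∃ t : ℝ, 0 < t ∧ t < 1 ∧ (1 - t) * (2 + A) ≤ ε := by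
    refine ⟨1 - min (ε / (2 + A)) (1 / 2), ?_, ?_, ?_⟩
    · have := min_le_right (ε / (2 + A)) (1 / 2)
      linarith
    · have : 0 < min (ε / (2 + A)) (1 / 2) := lt_min (by positivity) (by norm_num)
      linarith
    · have h3 := min_le_left (ε / (2 + A)) (1 / 2)
      have h4 : min (ε / (2 + A)) (1 / 2) * (2 + A) ≤ ε / (2 + A) * (2 + A) :=
        mul_le_mul_of_nonneg_right h3 (by positivity)
      have h5 : ε / (2 + A) * (2 + A) = ε := by field_simp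
      linarith
  have h6 := key t ht0 ht1
  have hG : ‖g z‖ ^ 2 ≤ 1 := by nlinarith
  have hG0 : 0 ≤ ‖g z‖ ^ 2 := by positivity
  have h7 : (1 - t ^ 2) * ‖g z‖ ^ 2 ≤ (1 - t) * 2 := by
    have : 1 - t ^ 2 = (1 - t) * (1 + t) := by ring
    rw [this]
    have : (1 + t) * ‖g z‖ ^ 2 ≤ 2 := by nlinarith
    nlinarith
  nlinarith

lemma alg_aux (z x y c q : ℂ) (hq : q ≠ 0) (hqd : q = 1 + c * (z * x)) :
    (1 * ((z * x + c) / q) + z * (((1 * x + z * y) * q - (z * x + c) * (c * (1 * x + z * y)))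
      / q ^ 2)) * q ^ 2
      = (c * (z * x) ^ 2 + 2 * (z * x) + c) + (1 - c ^ 2) * (z ^ 2 * y) := by
  have h1 : (z * x + c) / q * q ^ 2 = (z * x + c) * q := by
    field_simp
  have h2 : ((1 * x + z * y) * q - (z * x + c) * (c * (1 * x + z * y))) / q ^ 2 * q ^ 2
      = (1 * x + z * y) * q - (z * x + c) * (c * (1 * x + z * y)) :=
    div_mul_cancel₀ _ (pow_ne_zero 2 hq)
  have h3 : (1 * ((z * x + c) / q) + z * (((1 * x + z * y) * q - (z * x + c) * (c * (1 * x + z * y)))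
      / q ^ 2)) * q ^ 2 = (z * x + c) / q * q ^ 2 +
      z * (((1 * x + z * y) * q - (z * x + c) * (c * (1 * x + z * y))) / q ^ 2 * q ^ 2) := by ring
  rw [h3, h1, h2, hqd]
  ring

/-- Second order Schwarz-Pick for self-maps fixing the origin with real derivative `c ∈ [0,1)`. -/
lemma dieu {w : ℂ → ℂ} (hd : DifferentiableOn ℂ w (ball 0 1))
    (hw : ∀ ζ ∈ ball (0:ℂ) 1, ‖w ζ‖ ≤ ‖ζ‖) {c : ℝ} (hc0 : 0 ≤ c) (hc1 : c < 1)
    (hc : deriv w 0 = c) {z : ℂ} (hz : ‖z‖ < 1) :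
    ∃ ψ : ℂ, ‖ψ‖ ≤ ‖z‖ ∧ w z = z * ((ψ + c) / (1 + c * ψ)) ∧
      ‖deriv w z‖ * ‖1 + c * ψ‖ ^ 2
        ≤ ‖c * ψ ^ 2 + 2 * ψ + c‖ + (1 - c ^ 2) * ((‖z‖ ^ 2 - ‖ψ‖ ^ 2) / (1 - ‖z‖ ^ 2)) := by
  have hzb : z ∈ ball (0:ℂ) 1 := by simpa using hz
  have hnb : ball (0:ℂ) 1 ∈ 𝓝 (0:ℂ) := isOpen_ball.mem_nhds (by simp)
  have hw0 : w 0 = 0 := by
    have := hw 0 (by simp)
    simpa using this
  have hwm : MapsTo w (ball 0 1) (closedBall (w 0) 1) := by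
    intro ζ hζ
    rw [hw0]
    have h1 := hw ζ hζ
    have h2 : ‖ζ‖ < 1 := by simpa using hζ
    simpa using h1.trans h2.le
  set φ := dslope w 0 with hφ
  have hφd : DifferentiableOn ℂ φ (ball 0 1) := (differentiableOn_dslope hnb).2 hd
  have hφ1 : ∀ ζ ∈ ball (0:ℂ) 1, ‖φ ζ‖ ≤ 1 := by
    intro ζ hζ
    simpa using norm_dslope_le_div_of_mapsTo_ball hd hwm hζ
  have hφ0 : φ 0 = c := by rw [hφ, dslope_same, hc]
  have hwφ : ∀ ζ, w ζ = ζ * φ ζ := by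
    intro ζ
    have := sub_smul_dslope w 0 ζ
    rw [hw0] at this
    simpa [smul_eq_mul] using this.symm
  have hcn : ‖(c : ℂ)‖ < 1 := by
    rw [Complex.norm_real, Real.norm_eq_abs, abs_of_nonneg hc0]; exact hc1
  have hcc : conj (c : ℂ) = c := Complex.conj_ofReal c
  have hne : ∀ ζ ∈ ball (0:ℂ) 1, 1 - (c : ℂ) * φ ζ ≠ 0 := by
    intro ζ hζ
    have := mob_ne (z := -(c : ℂ)) (ζ := φ ζ) (by rwa [norm_neg]) (hφ1 ζ hζ)
    simpa [sub_eq_add_neg, hcc] using this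
  set Ψ : ℂ → ℂ := fun ζ => (φ ζ - c) / (1 - c * φ ζ) with hΨ
  have hΨd : DifferentiableOn ℂ Ψ (ball 0 1) := by
    intro ζ hζ
    have h1 := hφd.differentiableAt (isOpen_ball.mem_nhds hζ)
    exact ((h1.sub_const _).div ((h1.const_mul _).const_sub 1) (hne ζ hζ)).differentiableWithinAt
  have hΨ0 : Ψ 0 = 0 := by simp [hΨ, hφ0]
  have hΨm : MapsTo Ψ (ball 0 1) (closedBall (Ψ 0) 1) := by
    intro ζ hζ
    rw [hΨ0]
    have := mob_le (b := (c : ℂ)) (u := φ ζ) hcn (hφ1 ζ hζ)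
    rw [hcc] at this
    rw [mem_closedBall_zero_iff]
    exact this
  set χ := dslope Ψ 0 with hχ
  have hχd : DifferentiableOn ℂ χ (ball 0 1) := (differentiableOn_dslope hnb).2 hΨd
  have hχ1 : ∀ ζ ∈ ball (0:ℂ) 1, ‖χ ζ‖ ≤ 1 := by
    intro ζ hζ
    simpa using norm_dslope_le_div_of_mapsTo_ball hΨd hΨm hζ
  have hΨχ : ∀ ζ, Ψ ζ = ζ * χ ζ := by
    intro ζ
    have := sub_smul_dslope Ψ 0 ζ
    rw [hΨ0] at this
    simpa [smul_eq_mul] using this.symm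
  have hΨle : ∀ ζ ∈ ball (0:ℂ) 1, ‖Ψ ζ‖ ≤ 1 := by
    intro ζ hζ
    have := hΨm hζ
    rw [hΨ0] at this
    simpa using this
  have hne2 : ∀ ζ ∈ ball (0:ℂ) 1, 1 + (c : ℂ) * Ψ ζ ≠ 0 := by
    intro ζ hζ
    have := mob_ne (z := (c : ℂ)) (ζ := Ψ ζ) hcn (hΨle ζ hζ)
    simpa [hcc] using this
  have hφΨ : ∀ ζ ∈ ball (0:ℂ) 1, φ ζ = (Ψ ζ + c) / (1 + c * Ψ ζ) := by
    intro ζ hζ
    rw [eq_div_iff (hne2 ζ hζ)]
    have h1 : Ψ ζ * (1 - c * φ ζ) = φ ζ - c := by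
      simp only [hΨ]
      exact div_mul_cancel₀ _ (hne ζ hζ)
    linear_combination (-1 : ℂ) * h1
  refine ⟨Ψ z, ?_, ?_, ?_⟩
  · rw [hΨχ, norm_mul]
    exact mul_le_of_le_one_right (norm_nonneg _) (hχ1 z hzb)
  · rw [hwφ, hφΨ z hzb]
  · -- derivative
    have hW : ∀ ζ ∈ ball (0:ℂ) 1,
        w ζ = ζ * ((ζ * χ ζ + c) / (1 + c * (ζ * χ ζ))) := by
      intro ζ hζ
      rw [hwφ, hφΨ ζ hζ, ← hΨχ]
    have hχat : HasDerivAt χ (deriv χ z) z :=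
      (hχd.differentiableAt (isOpen_ball.mem_nhds hzb)).hasDerivAt
    have h1 : HasDerivAt (fun ζ => ζ * χ ζ) (1 * χ z + z * deriv χ z) z :=
      (hasDerivAt_id z).mul hχat
    have hne3 : 1 + (c : ℂ) * (z * χ z) ≠ 0 := by
      rw [← hΨχ]; exact hne2 z hzb
    have h2 : HasDerivAt (fun ζ => ζ * ((ζ * χ ζ + c) / (1 + c * (ζ * χ ζ)))) _ z :=
      (hasDerivAt_id z).mul ((h1.add_const (c : ℂ)).div ((h1.const_mul (c : ℂ)).const_add 1) hne3)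
    have h3 := (h2.congr_of_eventuallyEq (Filter.eventuallyEq_of_mem
        (isOpen_ball.mem_nhds hzb) hW)).deriv
    have h4 : deriv w z * (1 + c * Ψ z) ^ 2
        = (c * Ψ z ^ 2 + 2 * Ψ z + c) + (1 - c ^ 2) * (z ^ 2 * deriv χ z) := by
      rw [h3, hΨχ z]
      simp only [id]
      exact alg_aux z (χ z) (deriv χ z) c _ hne3 rfl
    have h5 := congrArg norm h4
    rw [norm_mul, norm_pow] at h5
    rw [h5]
    refine (norm_add_le _ _).trans ?_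
    have hcr : ‖(1 - (c:ℂ) ^ 2)‖ = 1 - c ^ 2 := by
      have : (1 - (c:ℂ) ^ 2) = ((1 - c ^ 2 : ℝ) : ℂ) := by push_cast; ring
      rw [this, Complex.norm_real, Real.norm_eq_abs, abs_of_nonneg (by nlinarith)]
    have hsp := sp hχd hχ1 hz
    have hp1 : 0 < 1 - ‖z‖ ^ 2 := by nlinarith [norm_nonneg z]
    have h6 : ‖z ^ 2 * deriv χ z‖ ≤ (‖z‖ ^ 2 - ‖Ψ z‖ ^ 2) / (1 - ‖z‖ ^ 2) := by
      rw [le_div_iff₀ hp1, hΨχ, norm_mul, norm_mul, norm_pow]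
      have : ‖z‖ ^ 2 * (‖deriv χ z‖ * (1 - ‖z‖ ^ 2)) ≤ ‖z‖ ^ 2 * (1 - ‖χ z‖ ^ 2) :=
        mul_le_mul_of_nonneg_left hsp (by positivity)
      nlinarith
    have h7 : ‖(1 - (c:ℂ) ^ 2) * (z ^ 2 * deriv χ z)‖
        ≤ (1 - c ^ 2) * ((‖z‖ ^ 2 - ‖Ψ z‖ ^ 2) / (1 - ‖z‖ ^ 2)) := by
      rw [norm_mul, hcr]
      exact mul_le_mul_of_nonneg_left h6 (by nlinarith)
    linarith

end Pool.Agent.Run7.h734.CM
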