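import Pool.Agent.Run7.h734.CM.Core
import Pool.Agent.Run7.h734.CM.SP
import Pool.Agent.Run7.h734.CM.Growth

/-! Assembly: from the core inequality to the majorization of derivatives. -/

set_option autoImplicit false
set_option linter.unusedVariables false

open Complex Metric Set Filter Topology

namespace Pool.Agent.Run7.h734.CM

open scoped ComplexConjugate

lemma powbound {τ A : ℝ} (hτ : 0 ≤ τ) (hA : 1 ≤ A) (h : A * τ < 1) :
    ((1 + τ) / (1 - τ)) ^ A ≤ (1 + A * τ) / (1 - A * τ) := by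
  have hτ1 : τ < 1 := by nlinarith
  have hAτ : 0 ≤ A * τ := by positivity
  have h1 := Real.hasSum_log_sub_log_of_abs_lt_one (x := τ) (by rw [abs_of_nonneg hτ]; exact hτ1)
  have h2 := Real.hasSum_log_sub_log_of_abs_lt_one (x := A * τ)
    (by rw [abs_of_nonneg hAτ]; exact h)
  have h3 : A * (Real.log (1 + τ) - Real.log (1 - τ))
      ≤ Real.log (1 + A * τ) - Real.log (1 - A * τ) := by
    refine hasSum_le (fun k => ?_) (h1.mul_left A) h2
    have hA1 : A ≤ A ^ (2 * k + 1) := by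
      calc A = A ^ 1 := (pow_one A).symm
        _ ≤ A ^ (2 * k + 1) := pow_le_pow_right₀ hA (by omega)
    rw [mul_pow]
    have h4 : 0 ≤ (2 : ℝ) * (1 / (2 * (k : ℝ) + 1)) * τ ^ (2 * k + 1) := by positivity
    nlinarith
  have hp1 : 0 < (1 + τ) / (1 - τ) := div_pos (by linarith) (by linarith)
  have hp2 : 0 < (1 + A * τ) / (1 - A * τ) := div_pos (by linarith) (by linarith)
  rw [← Real.log_le_log_iff (Real.rpow_pos_of_pos hp1 _) hp2, Real.log_rpow hp1,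
    Real.log_div (by linarith) (by linarith), Real.log_div (by linarith) (by linarith)]
  exact h3

lemma nsq_add (t : ℝ) (p : ℂ) :
    ‖1 + (t : ℂ) * p‖ ^ 2 = 1 + 2 * t * p.re + t ^ 2 * ‖p‖ ^ 2 := by
  simp only [Complex.sq_norm, Complex.normSq_apply]
  simp
  ring

lemma nsq_sub (t : ℝ) (p : ℂ) :
    ‖1 - (t : ℂ) * p‖ ^ 2 = 1 - 2 * t * p.re + t ^ 2 * ‖p‖ ^ 2 := by
  simp only [Complex.sq_norm, Complex.normSq_apply]
  simp
  ring

lemma nsq_L (t : ℝ) (p : ℂ) :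
    ‖1 - (t : ℂ) * p ^ 2‖ ^ 2 = (1 + t * ‖p‖ ^ 2) ^ 2 - 4 * t * p.re ^ 2 := by
  simp only [Complex.sq_norm, Complex.normSq_apply]
  simp [pow_two]
  ring

lemma key' {α κ D : ℝ} {z p w : ℂ} (hα : 1 ≤ α) (hr0 : 0 < ‖z‖) (hr1 : ‖z‖ < 1)
    (hr : 2 * α * ‖z‖ ≤ (1 - ‖z‖) ^ 2) (hκ0 : 0 ≤ κ) (hκ1 : κ ≤ 1) (hp : 0 < p.re)
    (hpr : (1 - ‖z‖ ^ 2) * (1 + ‖p‖ ^ 2) ≤ 2 * (1 + ‖z‖ ^ 2) * p.re)
    (hw : w = z * ((1 - κ * p) / (1 + κ * p)))
    (hD : D * ‖1 + κ * p‖ ^ 2 ≤ (1 + κ) * ‖1 - κ * p ^ 2‖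
      + κ * (2 * ((1 + ‖z‖ ^ 2) / (1 - ‖z‖ ^ 2)) * p.re - 1 - ‖p‖ ^ 2)) :
    (1 - ‖z‖ ^ 2) *
      ((‖1 - conj z * w‖ + ‖w - z‖) / (‖1 - conj z * w‖ - ‖w - z‖)) ^ α * D ≤ 1 - ‖w‖ ^ 2 := by
  set r := ‖z‖ with hrdef
  have hq : 0 < 1 - r ^ 2 := by nlinarith
  set C := (1 + r ^ 2) / (1 - r ^ 2) with hC
  set R := 2 * r / (1 - r ^ 2) with hR
  have hCpos : 0 < C := by rw [hC]; positivity
  have hRpos : 0 < R := by rw [hR]; positivity
  have hCR : C ^ 2 - R ^ 2 = 1 := by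
    rw [hC, hR]; field_simp; ring
  set l := C - R with hl
  have hl' : l = (1 - r) / (1 + r) := by
    rw [hl, hC, hR, ← sub_div, div_eq_div_iff hq.ne' (by positivity)]
    ring
  have hlpos : 0 < l := by
    rw [hl']; exact div_pos (by linarith) (by linarith)
  have hr2 : 2 * r ≤ (1 - r) ^ 2 := by nlinarith
  have hl3 : 1 ≤ 3 * l ^ 2 := by
    rw [hl', div_pow, ← mul_div_assoc, le_div_iff₀ (by positivity)]
    nlinarith
  set n := ‖p‖ with hn
  set a := p.re with ha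
  have hn0 : 0 < n := by
    rw [hn]; apply norm_pos_iff.2; intro h0; rw [h0] at ha; simp at ha; linarith
  have han : a ≤ n := Complex.re_le_norm p
  have hDD : n ^ 2 + 1 ≤ 2 * C * a := by
    have : 2 * C * a = (2 * (1 + r ^ 2) * a) / (1 - r ^ 2) := by rw [hC]; ring
    rw [this, le_div_iff₀ hq]
    linarith
  set S := ‖1 + ((C * κ : ℝ) : ℂ) * p‖ with hS
  have hS2 : S ^ 2 = 1 + 2 * C * κ * a + C ^ 2 * κ ^ 2 * n ^ 2 := by
    rw [hS, nsq_add]; ring
  have hS0 : 0 ≤ S := norm_nonneg _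
  set L := ‖1 - (κ : ℂ) * p ^ 2‖ with hL
  have hL2 : L ^ 2 = (1 + κ * n ^ 2) ^ 2 - 4 * κ * a ^ 2 := by
    rw [hL, nsq_L]
  have hL0 : 0 ≤ L := norm_nonneg _
  have hcore := core (C := C) (R := R) (k := κ) (n := n) (a := a) (S := S) (L := L)
    hRpos hCR hCpos hl3 hκ0 hκ1 hn0 han hp hDD hS0 hS2 hL0 hL2
  rw [← hl] at hcore
  set N := (1 + κ) * L + κ * (2 * C * a - 1 - n ^ 2) with hN
  set M := 1 + κ ^ 2 * n ^ 2 + 2 * C * κ * a with hM
  have hN0 : 0 ≤ N := by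
    have h1 : 0 ≤ 2 * C * a - 1 - n ^ 2 := by linarith
    rw [hN]; positivity
  have hcore' : N * (S + l * κ * n) ≤ M * (S - l * κ * n) := by
    have e : (1 + κ) * L + 2 * C * κ * a - κ * (1 + n ^ 2) = N := by rw [hN]; ring
    rw [e] at hcore
    exact hcore
  have hlC : l < C := by rw [hl]; linarith
  have hκn : 0 ≤ κ * n := by positivity
  have hSC : C * (κ * n) < S := by
    have h1 : 0 < 1 + 2 * C * κ * a := by positivity
    have h2 : (C * (κ * n)) ^ 2 < S ^ 2 := by rw [hS2]; nlinarith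
    exact lt_of_pow_lt_pow_left₀ 2 hS0 h2
  have hSl : l * κ * n < S := by
    have : l * κ * n ≤ C * (κ * n) := by nlinarith
    linarith
  have hRC : R < C := by linarith
  have hSR : R * κ * n < S := by
    have : R * κ * n ≤ C * (κ * n) := by nlinarith
    linarith
  have hSpos : 0 < S := lt_of_le_of_lt (by positivity) hSl
  -- the exponent
  have hαl : α * R ≤ l := by
    rw [hl', hR, ← mul_div_assoc, div_le_div_iff₀ hq (by linarith)]
    nlinarith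
  set E := (S + R * κ * n) / (S - R * κ * n) with hE
  have hE1 : 1 ≤ E := by
    rw [hE, le_div_iff₀ (by linarith)]
    have : 0 ≤ R * κ * n := by positivity
    linarith
  have hEα : E ^ α ≤ (S + l * κ * n) / (S - l * κ * n) := by
    set τ := R * κ * n / S with hτ
    have hτ0 : 0 ≤ τ := by rw [hτ]; positivity
    have hlR : α ≤ l / R := by rw [le_div_iff₀ hRpos]; exact hαl
    have h1 : (l / R) * τ = l * κ * n / S := by
      rw [hτ]; field_simp
    have h2 : (l / R) * τ < 1 := by rw [h1, div_lt_one hSpos]; exact hSl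
    have h3 := powbound hτ0 (le_trans hα hlR) h2
    rw [h1] at h3
    have h4 : (1 + τ) / (1 - τ) = E := by
      rw [hτ, hE]
      have : S ≠ 0 := hSpos.ne'
      rw [one_add_div this, one_sub_div this, div_div_div_cancel_right₀ this]
    have h5 : (1 + l * κ * n / S) / (1 - l * κ * n / S) = (S + l * κ * n) / (S - l * κ * n) := by
      have : S ≠ 0 := hSpos.ne'
      rw [one_add_div this, one_sub_div this, div_div_div_cancel_right₀ this]
    rw [h4, h5] at h3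
    exact (Real.rpow_le_rpow_of_exponent_le hE1 hlR).trans h3
  have hEN : E ^ α * N ≤ M := by
    have h1 : E ^ α * N ≤ (S + l * κ * n) / (S - l * κ * n) * N :=
      mul_le_mul_of_nonneg_right hEα hN0
    refine h1.trans ?_
    rw [div_mul_eq_mul_div, div_le_iff₀ (by linarith)]
    linarith
  -- geometry
  have hd0 : 0 < ‖1 + (κ : ℂ) * p‖ := by
    have h1 : 0 < ‖1 + (κ : ℂ) * p‖ ^ 2 := by rw [nsq_add]; positivity
    by_contra hcon
    have h2 : ‖1 + (κ : ℂ) * p‖ = 0 := le_antisymm (not_lt.1 hcon) (norm_nonneg _)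
    rw [h2] at h1; norm_num at h1
  have hdne : (1 + (κ : ℂ) * p) ≠ 0 := norm_pos_iff.1 hd0
  have hzz : conj z * z = ((r ^ 2 : ℝ) : ℂ) := conj_mul_self' z
  have hX : ‖1 - conj z * w‖ * ‖1 + (κ : ℂ) * p‖ = (1 - r ^ 2) * S := by
    have h1 : (1 - conj z * w) * (1 + (κ : ℂ) * p)
        = ((1 - r ^ 2 : ℝ) : ℂ) * (1 + ((C * κ : ℝ) : ℂ) * p) := by
      have h2 : conj z * w = ((r ^ 2 : ℝ) : ℂ) * ((1 - κ * p) / (1 + κ * p)) := by
        rw [hw, ← mul_assoc, hzz]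
      have h3 : (1 - conj z * w) * (1 + (κ : ℂ) * p)
          = (1 + κ * p) - ((r ^ 2 : ℝ) : ℂ) * (1 - κ * p) := by
        rw [h2, sub_mul, mul_assoc, div_mul_cancel₀ _ hdne, one_mul]
      have h4 : ((1 - r ^ 2 : ℝ) : ℂ) * ((C * κ : ℝ) : ℂ) = ((1 + r ^ 2 : ℝ) : ℂ) * κ := by
        rw [← Complex.ofReal_mul, ← Complex.ofReal_mul]
        congr 1
        rw [hC]; field_simp
      rw [h3, mul_add, mul_one, ← mul_assoc, h4]
      push_cast
      ring
    have h5 := congrArg norm h1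
    rw [norm_mul, norm_mul, Complex.norm_real, Real.norm_of_nonneg hq.le] at h5
    exact h5
  have hY : ‖w - z‖ * ‖1 + (κ : ℂ) * p‖ = (1 - r ^ 2) * (R * κ * n) := by
    have h1 : (w - z) * (1 + (κ : ℂ) * p) = z * (-(2 * κ * p)) := by
      rw [hw, sub_mul, mul_assoc, div_mul_cancel₀ _ hdne]
      ring
    have h5 := congrArg norm h1
    rw [norm_mul, norm_mul, norm_neg, norm_mul, norm_mul, Complex.norm_real,
      Real.norm_of_nonneg hκ0] at h5
    rw [h5, ← hrdef, ← hn, hR]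
    simp
    field_simp
  have hEE : (‖1 - conj z * w‖ + ‖w - z‖) / (‖1 - conj z * w‖ - ‖w - z‖) = E := by
    have h1 : ‖1 - conj z * w‖ = (1 - r ^ 2) / ‖1 + (κ : ℂ) * p‖ * S := by
      rw [div_mul_eq_mul_div, eq_div_iff hd0.ne']; exact hX
    have h2 : ‖w - z‖ = (1 - r ^ 2) / ‖1 + (κ : ℂ) * p‖ * (R * κ * n) := by
      rw [div_mul_eq_mul_div, eq_div_iff hd0.ne']; exact hY
    rw [h1, h2, ← mul_add, ← mul_sub, mul_div_mul_left _ _ (by positivity)]
  have hW : (1 - ‖w‖ ^ 2) * ‖1 + (κ : ℂ) * p‖ ^ 2 = (1 - r ^ 2) * M := by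
    have h1 : w * (1 + (κ : ℂ) * p) = z * (1 - κ * p) := by
      rw [hw, mul_assoc, div_mul_cancel₀ _ hdne]
    have h2 := congrArg (fun x => ‖x‖ ^ 2) h1
    simp only [norm_mul, mul_pow] at h2
    rw [nsq_sub, ← hrdef, ← hn, ← ha] at h2
    rw [sub_mul, h2, nsq_add, hM, hC]
    rw [← hn, ← ha]
    field_simp
    ring
  rw [hEE]
  have hfin : (1 - r ^ 2) * E ^ α * D * ‖1 + (κ : ℂ) * p‖ ^ 2
      ≤ (1 - ‖w‖ ^ 2) * ‖1 + (κ : ℂ) * p‖ ^ 2 := by
    rw [hW]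
    have h1 : (1 - r ^ 2) * E ^ α * D * ‖1 + (κ : ℂ) * p‖ ^ 2
        = (1 - r ^ 2) * (E ^ α * (D * ‖1 + (κ : ℂ) * p‖ ^ 2)) := by ring
    rw [h1]
    have hE0 : 0 ≤ E ^ α := Real.rpow_nonneg (by linarith) _
    have h2 : E ^ α * (D * ‖1 + (κ : ℂ) * p‖ ^ 2) ≤ E ^ α * N :=
      mul_le_mul_of_nonneg_left hD hE0
    exact mul_le_mul_of_nonneg_left (h2.trans hEN) hq.le
  exact le_of_mul_le_mul_right hfin (by positivity)

end Pool.Agent.Run7.h734.CM
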