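import Pool.Agent.Run7.h734.CM.Final

/-! Assembly, second part. -/

set_option autoImplicit false
set_option linter.unusedVariables false

open Complex Metric Set Filter Topology

namespace Pool.Agent.Run7.h734.CM

open scoped ComplexConjugate

lemma key_alg {c : ℝ} {ψ : ℂ} (hc0 : 0 ≤ c) (hψ : 1 + ψ ≠ 0) :
    (1 + (((1 - c) / (1 + c) : ℝ) : ℂ) * ((1 - ψ) / (1 + ψ)))
        = 2 * (1 + c * ψ) / ((1 + c) * (1 + ψ)) ∧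
    (1 - (((1 - c) / (1 + c) : ℝ) : ℂ) * ((1 - ψ) / (1 + ψ)))
        = 2 * (ψ + c) / ((1 + c) * (1 + ψ)) ∧
    (1 - (((1 - c) / (1 + c) : ℝ) : ℂ) * ((1 - ψ) / (1 + ψ)) ^ 2)
        = 2 * (c * ψ ^ 2 + 2 * ψ + c) / ((1 + c) * (1 + ψ) ^ 2) := by
  have h1 : (1 + (c : ℂ)) ≠ 0 := by
    have : (1 + c) ≠ 0 := by linarith
    exact_mod_cast this
  refine ⟨?_, ?_, ?_⟩
  · push_cast
    field_simp
    ring
  · push_cast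
    field_simp
    ring
  · push_cast
    field_simp
    ring

lemma re_p (ψ : ℂ) (hψ : 1 + ψ ≠ 0) :
    ((1 - ψ) / (1 + ψ)).re * ‖1 + ψ‖ ^ 2 = 1 - ‖ψ‖ ^ 2 := by
  have hN : 0 < ‖1 + ψ‖ ^ 2 := by
    have := norm_pos_iff.2 hψ
    positivity
  rw [Complex.div_re, ← Complex.normSq_eq_norm_sq, ← Complex.normSq_eq_norm_sq]
  rw [← Complex.normSq_eq_norm_sq] at hN
  rw [← add_div, div_mul_cancel₀ _ hN.ne']
  simp only [Complex.normSq_apply]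
  simp
  ring

lemma key {α c D : ℝ} {z ψ w : ℂ} (hα : 1 ≤ α) (hr0 : 0 < ‖z‖) (hr1 : ‖z‖ < 1)
    (hr : 2 * α * ‖z‖ ≤ (1 - ‖z‖) ^ 2) (hc0 : 0 ≤ c) (hc1 : c < 1) (hψ : ‖ψ‖ ≤ ‖z‖)
    (hw : w = z * ((ψ + c) / (1 + c * ψ)))
    (hD : D * ‖1 + c * ψ‖ ^ 2 ≤ ‖c * ψ ^ 2 + 2 * ψ + c‖
      + (1 - c ^ 2) * ((‖z‖ ^ 2 - ‖ψ‖ ^ 2) / (1 - ‖z‖ ^ 2))) :
    (1 - ‖z‖ ^ 2) *
      ((‖1 - conj z * w‖ + ‖w - z‖) / (‖1 - conj z * w‖ - ‖w - z‖)) ^ α * D ≤ 1 - ‖w‖ ^ 2 := by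
  have hψ1 : ‖ψ‖ < 1 := lt_of_le_of_lt hψ hr1
  have hψne : 1 + ψ ≠ 0 := by
    have := mob_ne (z := (1/2 : ℂ) * 0 + ψ) (ζ := 1) (by simpa using hψ1) (by simp)
    intro h
    have h2 : ψ = -1 := by linear_combination h
    rw [h2] at hψ1
    simp at hψ1
  have hc1' : (1 + (c : ℂ)) ≠ 0 := by
    have : (1 + c) ≠ 0 := by linarith
    exact_mod_cast this
  have hcψ : 1 + (c : ℂ) * ψ ≠ 0 := by
    intro h
    have h2 : (c : ℂ) * ψ = -1 := by linear_combination h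
    have h3 := congrArg norm h2
    rw [norm_mul, Complex.norm_real, Real.norm_of_nonneg hc0] at h3
    simp at h3
    nlinarith [norm_nonneg ψ]
  obtain ⟨e1, e2, e3⟩ := key_alg (c := c) (ψ := ψ) hc0 hψne
  have hQ : 0 < ‖1 + ψ‖ ^ 2 := by
    have := norm_pos_iff.2 hψne
    positivity
  have hq : 0 < 1 - ‖z‖ ^ 2 := by nlinarith [norm_nonneg z]
  have hre := re_p ψ hψne
  have hnp : ‖(1 - ψ) / (1 + ψ)‖ ^ 2 * ‖1 + ψ‖ ^ 2 = ‖1 - ψ‖ ^ 2 := by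
    rw [norm_div, div_pow, div_mul_cancel₀ _ hQ.ne']
  have hpar : ‖1 + ψ‖ ^ 2 + ‖1 - ψ‖ ^ 2 = 2 + 2 * ‖ψ‖ ^ 2 := by
    simp only [Complex.sq_norm, Complex.normSq_apply]
    simp
    ring
  have hψ2 : ‖ψ‖ ^ 2 ≤ ‖z‖ ^ 2 := by nlinarith [norm_nonneg ψ]
  have hcp : 0 < 1 + c := by linarith
  refine key' (κ := (1 - c) / (1 + c)) (p := (1 - ψ) / (1 + ψ)) hα hr0 hr1 hr
    (div_nonneg (by linarith) (by linarith)) ?_ ?_ ?_ ?_ ?_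
  · rw [div_le_one hcp]; linarith
  · by_contra hcon
    have h1 := not_lt.1 hcon
    nlinarith [norm_nonneg ψ]
  · have h1 : (1 - ‖z‖ ^ 2) * (1 + ‖(1 - ψ) / (1 + ψ)‖ ^ 2) * ‖1 + ψ‖ ^ 2
        ≤ 2 * (1 + ‖z‖ ^ 2) * ((1 - ψ) / (1 + ψ)).re * ‖1 + ψ‖ ^ 2 := by
      have h2 : (1 - ‖z‖ ^ 2) * (1 + ‖(1 - ψ) / (1 + ψ)‖ ^ 2) * ‖1 + ψ‖ ^ 2
          = (1 - ‖z‖ ^ 2) * (2 + 2 * ‖ψ‖ ^ 2) := by
        rw [← hpar, ← hnp]; ring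
      have h3 : 2 * (1 + ‖z‖ ^ 2) * ((1 - ψ) / (1 + ψ)).re * ‖1 + ψ‖ ^ 2
          = 2 * (1 + ‖z‖ ^ 2) * (1 - ‖ψ‖ ^ 2) := by
        rw [← hre]; ring
      rw [h2, h3]
      nlinarith
    exact le_of_mul_le_mul_right h1 hQ
  · rw [e1, e2, hw]
    congr 1
    have hA : (1 + (c : ℂ)) * (1 + ψ) ≠ 0 := mul_ne_zero hc1' hψne
    rw [div_div_div_cancel_right₀ hA, mul_div_mul_left _ _ (two_ne_zero)]
  · have hn1 : ‖(1 : ℂ) + c‖ = 1 + c := by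
      have : (1 : ℂ) + c = ((1 + c : ℝ) : ℂ) := by push_cast; ring
      rw [this, Complex.norm_real, Real.norm_of_nonneg hcp.le]
    rw [e1, e3, norm_div, norm_div, norm_mul, norm_mul, norm_mul, norm_mul, norm_pow, hn1]
    have h2 : ‖(2 : ℂ)‖ = 2 := by simp
    rw [h2]
    have hk : 0 ≤ 4 / ((1 + c) ^ 2 * ‖1 + ψ‖ ^ 2) := by positivity
    have h3 := mul_le_mul_of_nonneg_left hD hk
    have e4 : (1 - c) / (1 + c) * (2 * ((1 + ‖z‖ ^ 2) / (1 - ‖z‖ ^ 2)) * ((1 - ψ) / (1 + ψ)).re - 1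
          - ‖(1 - ψ) / (1 + ψ)‖ ^ 2)
        = 4 / ((1 + c) ^ 2 * ‖1 + ψ‖ ^ 2)
          * ((1 - c ^ 2) * ((‖z‖ ^ 2 - ‖ψ‖ ^ 2) / (1 - ‖z‖ ^ 2))) := by
      have h5 : ((1 - ψ) / (1 + ψ)).re = (1 - ‖ψ‖ ^ 2) / ‖1 + ψ‖ ^ 2 := by
        rw [eq_div_iff hQ.ne']; exact hre
      have h6 : ‖(1 - ψ) / (1 + ψ)‖ ^ 2 = (2 + 2 * ‖ψ‖ ^ 2 - ‖1 + ψ‖ ^ 2) / ‖1 + ψ‖ ^ 2 := by
        rw [eq_div_iff hQ.ne', hnp]; linarith
      rw [h5, h6]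
      have hQ' := hQ.ne'
      generalize ‖1 + ψ‖ ^ 2 = Q at *
      generalize ‖ψ‖ ^ 2 = y at *
      generalize ‖z‖ ^ 2 = x at *
      have hq' := hq.ne'
      field_simp
      ring
    rw [e4]
    have e5 : D * (2 * ‖1 + ↑c * ψ‖ / ((1 + c) * ‖1 + ψ‖)) ^ 2
        = 4 / ((1 + c) ^ 2 * ‖1 + ψ‖ ^ 2) * (D * ‖1 + ↑c * ψ‖ ^ 2) := by
      rw [div_pow, mul_pow, mul_pow]
      ring
    have e6 : (1 + (1 - c) / (1 + c)) * (2 * ‖↑c * ψ ^ 2 + 2 * ψ + ↑c‖ / ((1 + c) * ‖1 + ψ‖ ^ 2))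
        = 4 / ((1 + c) ^ 2 * ‖1 + ψ‖ ^ 2) * ‖↑c * ψ ^ 2 + 2 * ψ + ↑c‖ := by
      field_simp
      ring
    rw [e5, e6, ← mul_add]
    exact h3

/-- Majorization of derivatives under subordination. -/
theorem majorization {F w : ℂ → ℂ} {α c : ℝ} (hα1 : 1 ≤ α)
    (hd : DifferentiableOn ℂ F (ball 0 1))
    (hne : ∀ ζ ∈ ball (0:ℂ) 1, deriv F ζ ≠ 0)
    (hα : ∀ ζ ∈ ball (0:ℂ) 1,
      ‖-conj ζ + (1 - (‖ζ‖ : ℂ) ^ 2) * deriv (deriv F) ζ / (2 * deriv F ζ)‖ ≤ α)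
    (hwd : DifferentiableOn ℂ w (ball 0 1)) (hw : ∀ ζ ∈ ball (0:ℂ) 1, ‖w ζ‖ ≤ ‖ζ‖)
    (hc0 : 0 ≤ c) (hc : deriv w 0 = c) {z : ℂ} (hz : ‖z‖ < 1)
    (hr : 2 * α * ‖z‖ ≤ (1 - ‖z‖) ^ 2) :
    ‖deriv (fun ζ => F (w ζ)) z‖ ≤ ‖deriv F z‖ := by
  have h0b : (0:ℂ) ∈ ball (0:ℂ) 1 := by simp
  have hzb : z ∈ ball (0:ℂ) 1 := by simpa using hz
  have hw0 : w 0 = 0 := by
    have := hw 0 h0b
    simpa using this
  have hwz : ‖w z‖ < 1 := lt_of_le_of_lt (hw z hzb) hz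
  have hwzb : w z ∈ ball (0:ℂ) 1 := by simpa using hwz
  have hwm : MapsTo w (ball 0 1) (closedBall (w 0) 1) := by
    intro ζ hζ
    rw [hw0]
    have h1 := hw ζ hζ
    have h2 : ‖ζ‖ < 1 := by simpa using hζ
    simpa using h1.trans h2.le
  have hchain : deriv (fun ζ => F (w ζ)) z = deriv F (w z) * deriv w z := by
    have h1 := (hd.differentiableAt (isOpen_ball.mem_nhds hwzb)).hasDerivAt
    have h2 := (hwd.differentiableAt (isOpen_ball.mem_nhds hzb)).hasDerivAt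
    exact (h1.comp z h2).deriv
  have hw'0 : ‖deriv w 0‖ ≤ 1 := norm_deriv_le_one_of_mapsTo_ball hwd hwm one_pos
  have hc1 : c ≤ 1 := by
    rw [hc, Complex.norm_real, Real.norm_of_nonneg hc0] at hw'0
    exact hw'0
  rcases eq_or_lt_of_le hc1 with hc1 | hc1
  · -- the map is the identity
    have h1 : ‖dslope w 0 0‖ = 1 / 1 := by
      rw [dslope_same, hc, hc1]; simp
    have h2 := affine_of_mapsTo_ball_of_norm_dslope_eq_div hwd hwm h0b h1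
    have h3 : ∀ ζ ∈ ball (0:ℂ) 1, w ζ = ζ := by
      intro ζ hζ
      have h4 := h2 hζ
      rw [dslope_same, hc, hc1, hw0] at h4
      simpa using h4
    have h5 : (fun ζ => F (w ζ)) =ᶠ[𝓝 z] F :=
      Filter.eventuallyEq_of_mem (isOpen_ball.mem_nhds hzb) (fun ζ hζ => by
        show F (w ζ) = F ζ
        rw [h3 ζ hζ])
    rw [h5.deriv_eq]
  · by_cases hz0 : z = 0
    · rw [hchain, hz0, hw0, norm_mul]
      exact mul_le_of_le_one_right (norm_nonneg _) hw'0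
    · have hr0 : 0 < ‖z‖ := norm_pos_iff.2 hz0
      obtain ⟨ψ, hψ, hwψ, hder⟩ := dieu hwd hw hc0 hc1 hc hz
      have hk := key hα1 hr0 hz hr hc0 hc1 hψ hwψ hder
      obtain ⟨hlt, hg⟩ := growth hd hne hα hz hwz
      rw [hchain, norm_mul]
      set E := ((‖1 - conj z * w z‖ + ‖w z - z‖) / (‖1 - conj z * w z‖ - ‖w z - z‖)) ^ α with hE
      have hW : 0 < 1 - ‖w z‖ ^ 2 := by nlinarith [norm_nonneg (w z)]
      have h1 : (1 - ‖w z‖ ^ 2) * (‖deriv F (w z)‖ * ‖deriv w z‖)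
          ≤ (1 - ‖w z‖ ^ 2) * ‖deriv F z‖ := by
        calc (1 - ‖w z‖ ^ 2) * (‖deriv F (w z)‖ * ‖deriv w z‖)
            = ((1 - ‖w z‖ ^ 2) * ‖deriv F (w z)‖) * ‖deriv w z‖ := by ring
          _ ≤ ((1 - ‖z‖ ^ 2) * ‖deriv F z‖ * E) * ‖deriv w z‖ :=
              mul_le_mul_of_nonneg_right hg (norm_nonneg _)
          _ = ((1 - ‖z‖ ^ 2) * E * ‖deriv w z‖) * ‖deriv F z‖ := by ring
          _ ≤ (1 - ‖w z‖ ^ 2) * ‖deriv F z‖ :=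
              mul_le_mul_of_nonneg_right hk (norm_nonneg _)
      exact le_of_mul_le_mul_left h1 hW

end Pool.Agent.Run7.h734.CM
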