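import Mathlib

/-! Polynomial inequalities for the Campbell majorization problem (MP_c4ccc8_an). -/

set_option autoImplicit false
set_option linter.unusedVariables false

namespace Pool.Agent.Run7.h734.CM

lemma P0 (s m t u v : ℝ) (ht : 0 ≤ t) (hu : 0 ≤ u) (hv : 0 ≤ v) (et : t = 3 * s - 1)
    (eu : u = m - 1) (ev : v = 1 - s * m) (hs : 0 ≤ s) (hm : 0 ≤ m) :
    0 ≤ 4 + (-4) * m ^ 1 + (-8) * s ^ 1 * m ^ 1 + (-4) * s ^ 2 * m ^ 1 + 8 * s ^ 1 * m ^ 2 + 4 * s ^ 2 * m ^ 4 := by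
  have e : 4 + (-4) * m ^ 1 + (-8) * s ^ 1 * m ^ 1 + (-4) * s ^ 2 * m ^ 1 + 8 * s ^ 1 * m ^ 2 + 4 * s ^ 2 * m ^ 4
      = 12 * u ^ 2 * v ^ 2
        + 16 / 3 * t ^ 1 * u ^ 1
        + 32 / 3 * u ^ 3 * v ^ 1
        + 8 / 3 * u ^ 4
        + 20 / 3 * t ^ 1 * u ^ 4
        + 4 * t ^ 2 * u ^ 3
        + 44 / 3 * t ^ 1 * u ^ 3 * v ^ 1
        + 4 * t ^ 2 * u ^ 4
        + 40 / 3 * t ^ 1 * u ^ 2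
        + 4 / 3 * t ^ 2 * u ^ 1
        + 4 / 3 * t ^ 2 * u ^ 2 := by
    rw [et, eu, ev]; ring
  rw [e]; positivity

lemma P1 (s m t u v : ℝ) (ht : 0 ≤ t) (hu : 0 ≤ u) (hv : 0 ≤ v) (et : t = 3 * s - 1)
    (eu : u = m - 1) (ev : v = 1 - s * m) (hs : 0 ≤ s) (hm : 0 ≤ m) :
    0 ≤ 12 + (-4) * m ^ 1 + (-4) * s ^ 1 * m ^ 1 + (-8) * s ^ 2 * m ^ 1 + (-6) * m ^ 2 + 6 * s ^ 1 * m ^ 2 + (-18) * s ^ 2 * m ^ 2 + (-6) * s ^ 3 * m ^ 2 + 4 * s ^ 1 * m ^ 3 + 16 * s ^ 2 * m ^ 3 + (-4) * s ^ 3 * m ^ 3 + 12 * s ^ 2 * m ^ 4 + 4 * s ^ 2 * m ^ 5 + 12 * s ^ 3 * m ^ 5 := by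
  have e : 12 + (-4) * m ^ 1 + (-4) * s ^ 1 * m ^ 1 + (-8) * s ^ 2 * m ^ 1 + (-6) * m ^ 2 + 6 * s ^ 1 * m ^ 2 + (-18) * s ^ 2 * m ^ 2 + (-6) * s ^ 3 * m ^ 2 + 4 * s ^ 1 * m ^ 3 + 16 * s ^ 2 * m ^ 3 + (-4) * s ^ 3 * m ^ 3 + 12 * s ^ 2 * m ^ 4 + 4 * s ^ 2 * m ^ 5 + 12 * s ^ 3 * m ^ 5
      = 38 / 27 * t ^ 3
        + 26 / 3 * u ^ 4 * v ^ 1
        + 176 / 9 * u ^ 2
        + 76 / 3 * t ^ 2 * u ^ 2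
        + 46 / 9 * t ^ 1 * u ^ 5
        + 202 / 9 * t ^ 2 * u ^ 4
        + 48 * t ^ 1 * u ^ 2
        + 446 / 27 * t ^ 3 * u ^ 3
        + 16 * t ^ 2 * u ^ 1
        + 128 / 27
        + 16 / 9 * t ^ 2 * u ^ 5
        + 4 / 9 * t ^ 3 * u ^ 5
        + 20 / 3 * t ^ 2 * v ^ 1
        + 110 / 3 * t ^ 2 * u ^ 3 * v ^ 1
        + 50 / 3 * t ^ 1 * u ^ 4
        + 464 / 27 * u ^ 3
        + 34 / 9 * u ^ 5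
        + 16 / 9 * t ^ 3 * u ^ 1
        + 112 / 3 * t ^ 1 * u ^ 3
        + 8 * t ^ 1 * v ^ 2
        + 26 / 9 * t ^ 3 * u ^ 2
        + 130 / 9 * t ^ 3 * u ^ 4
        + 272 / 9 * t ^ 1 * u ^ 1 := by
    rw [et, eu, ev]; ring
  rw [e]; positivity

lemma P2 (s m t u v : ℝ) (ht : 0 ≤ t) (hu : 0 ≤ u) (hv : 0 ≤ v) (et : t = 3 * s - 1)
    (eu : u = m - 1) (ev : v = 1 - s * m) (hs : 0 ≤ s) (hm : 0 ≤ m) :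
    0 ≤ 16 + 4 * m ^ 1 + 20 * s ^ 1 * m ^ 1 + (-8) * s ^ 2 * m ^ 1 + (-11) * m ^ 2 + (-2) * s ^ 1 * m ^ 2 + (-35) * s ^ 2 * m ^ 2 + (-16) * s ^ 3 * m ^ 2 + (-2) * m ^ 3 + 8 * s ^ 1 * m ^ 3 + 48 * s ^ 2 * m ^ 3 + (-8) * s ^ 3 * m ^ 3 + 2 * s ^ 4 * m ^ 3 + (-4) * s ^ 1 * m ^ 4 + 6 * s ^ 2 * m ^ 4 + (-8) * s ^ 3 * m ^ 4 + (-10) * s ^ 4 * m ^ 4 + 12 * s ^ 2 * m ^ 5 + 36 * s ^ 3 * m ^ 5 + 1 * s ^ 2 * m ^ 6 + 6 * s ^ 3 * m ^ 6 + 9 * s ^ 4 * m ^ 6 := by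
  have e : 16 + 4 * m ^ 1 + 20 * s ^ 1 * m ^ 1 + (-8) * s ^ 2 * m ^ 1 + (-11) * m ^ 2 + (-2) * s ^ 1 * m ^ 2 + (-35) * s ^ 2 * m ^ 2 + (-16) * s ^ 3 * m ^ 2 + (-2) * m ^ 3 + 8 * s ^ 1 * m ^ 3 + 48 * s ^ 2 * m ^ 3 + (-8) * s ^ 3 * m ^ 3 + 2 * s ^ 4 * m ^ 3 + (-4) * s ^ 1 * m ^ 4 + 6 * s ^ 2 * m ^ 4 + (-8) * s ^ 3 * m ^ 4 + (-10) * s ^ 4 * m ^ 4 + 12 * s ^ 2 * m ^ 5 + 36 * s ^ 3 * m ^ 5 + 1 * s ^ 2 * m ^ 6 + 6 * s ^ 3 * m ^ 6 + 9 * s ^ 4 * m ^ 6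
      = 3377 / 162 * t ^ 4 * u ^ 1
        + 2992 / 81 * u ^ 3
        + 4 * t ^ 4
        + 12203 / 324 * t ^ 4 * u ^ 2
        + 26 * t ^ 1 * u ^ 5 * v ^ 1
        + 5968 / 81 * t ^ 1 * u ^ 2
        + 125 / 81 * t ^ 4 * u ^ 4
        + 10787 / 216 * t ^ 3 * u ^ 6
        + 685 / 6 * t ^ 3 * u ^ 1 * v ^ 1
        + 2618 / 27 * t ^ 2 * u ^ 2
        + 8444 / 81 * t ^ 1 * u ^ 3
        + 3595 / 108 * t ^ 2 * u ^ 6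
        + 785 / 36 * t ^ 4 * u ^ 3
        + 352 / 9 * v ^ 2
        + 1879 / 24 * t ^ 3 * u ^ 5 * v ^ 1
        + 938 / 9 * t ^ 2 * v ^ 2
        + 1532 / 81 * u ^ 4
        + 4208 / 81 * t ^ 1 * u ^ 4
        + 1904 / 81 * u ^ 2
        + 77 * t ^ 2 * u ^ 3
        + 35 * t ^ 3 * v ^ 1
        + 6409 / 162 * t ^ 3 * u ^ 4
        + 1927 / 72 * t ^ 4 * u ^ 5
        + 10957 / 108 * t ^ 3 * u ^ 2 * v ^ 1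
        + 1279 / 18 * t ^ 2 * u ^ 4 * v ^ 1
        + 316 / 3 * t ^ 1 * v ^ 3
        + 10853 / 324 * t ^ 3 * u ^ 3
        + 38 / 3 * t ^ 1 * u ^ 6
        + 640 / 27 * u ^ 1
        + 28 / 9 * u ^ 6
        + 629 / 24 * t ^ 4 * u ^ 6
        + 2503 / 36 * t ^ 2 * u ^ 5 * v ^ 1
        + 159 * t ^ 2 * u ^ 1 * v ^ 2
        + 8 * u ^ 5 * v ^ 1
        + 9184 / 81 * t ^ 1 * u ^ 1 := by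
    rw [et, eu, ev]; ring
  rw [e]; positivity

lemma P3 (s m t u v : ℝ) (ht : 0 ≤ t) (hu : 0 ≤ u) (hv : 0 ≤ v) (et : t = 3 * s - 1)
    (eu : u = m - 1) (ev : v = 1 - s * m) (hs : 0 ≤ s) (hm : 0 ≤ m) :
    0 ≤ 16 + 8 * m ^ 1 + 32 * s ^ 1 * m ^ 1 + (-8) * s ^ 2 * m ^ 1 + (-9) * m ^ 2 + 10 * s ^ 1 * m ^ 2 + (-17) * s ^ 2 * m ^ 2 + (-16) * s ^ 3 * m ^ 2 + (-4) * m ^ 3 + 40 * s ^ 2 * m ^ 3 + (-32) * s ^ 3 * m ^ 3 + (-4) * s ^ 4 * m ^ 3 + (-4) * s ^ 1 * m ^ 4 + 22 * s ^ 2 * m ^ 4 + 28 * s ^ 3 * m ^ 4 + (-2) * s ^ 4 * m ^ 4 + 4 * s ^ 5 * m ^ 4 + (-2) * s ^ 1 * m ^ 5 + 16 * s ^ 3 * m ^ 5 + (-24) * s ^ 4 * m ^ 5 + (-6) * s ^ 5 * m ^ 5 + 3 * s ^ 2 * m ^ 6 + 18 * s ^ 3 * m ^ 6 + 27 * s ^ 4 * m ^ 6 := by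
  have e : 16 + 8 * m ^ 1 + 32 * s ^ 1 * m ^ 1 + (-8) * s ^ 2 * m ^ 1 + (-9) * m ^ 2 + 10 * s ^ 1 * m ^ 2 + (-17) * s ^ 2 * m ^ 2 + (-16) * s ^ 3 * m ^ 2 + (-4) * m ^ 3 + 40 * s ^ 2 * m ^ 3 + (-32) * s ^ 3 * m ^ 3 + (-4) * s ^ 4 * m ^ 3 + (-4) * s ^ 1 * m ^ 4 + 22 * s ^ 2 * m ^ 4 + 28 * s ^ 3 * m ^ 4 + (-2) * s ^ 4 * m ^ 4 + 4 * s ^ 5 * m ^ 4 + (-2) * s ^ 1 * m ^ 5 + 16 * s ^ 3 * m ^ 5 + (-24) * s ^ 4 * m ^ 5 + (-6) * s ^ 5 * m ^ 5 + 3 * s ^ 2 * m ^ 6 + 18 * s ^ 3 * m ^ 6 + 27 * s ^ 4 * m ^ 6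
      = 6784 / 243
        + 3328 / 243 * u ^ 1
        + 64433 / 486 * t ^ 1 * u ^ 3
        + 1279 / 324 * t ^ 5 * u ^ 1
        + 103811 / 1296 * t ^ 3 * u ^ 5
        + 6545 / 3888 * t ^ 5
        + 27085 / 23328 * t ^ 4 * u ^ 6
        + 63715 / 648 * t ^ 2 * u ^ 4 * v ^ 1
        + 15335 / 216 * t ^ 3 * v ^ 2
        + 5707 / 1944 * t ^ 4 * u ^ 3 * v ^ 1
        + 956 / 27 * u ^ 4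
        + 211123 / 3888 * t ^ 2 * u ^ 6
        + 3931 / 324 * t ^ 4 * u ^ 1 * v ^ 1
        + 3704 / 81 * u ^ 3 * v ^ 1
        + 1227 / 16 * t ^ 1 * v ^ 4
        + 85411 / 5832 * t ^ 4 * u ^ 3
        + 3593 / 81 * t ^ 2 * u ^ 2
        + 19306 / 243 * t ^ 2 * u ^ 1
        + 877 / 3888 * t ^ 4 * u ^ 4 * v ^ 1
        + 308 / 27 * u ^ 5 * v ^ 1
        + 140611 / 1296 * t ^ 2 * u ^ 5 * v ^ 1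
        + 148387 / 3888 * t ^ 3 * u ^ 6
        + 28913 / 486 * t ^ 3 * u ^ 3
        + 54 * t ^ 3 * u ^ 4
        + 4373 / 36 * t ^ 2 * v ^ 3
        + 1909 / 81 * t ^ 3 * u ^ 1 * v ^ 1
        + 2749 / 216 * t ^ 4 * u ^ 2 * v ^ 1
        + 1727 / 243 * t ^ 1
        + 19309 / 7776 * t ^ 4 * u ^ 5 * v ^ 1
        + 5227 / 648 * t ^ 5 * u ^ 2
        + 217 / 12 * t ^ 4 * v ^ 1
        + 1591 / 18 * t ^ 1 * u ^ 2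
        + 1750 / 81 * t ^ 1 * u ^ 6
        + 21143 / 162 * t ^ 2 * u ^ 3
        + 1118 / 27 * t ^ 1 * u ^ 5 * v ^ 1
        + 496 / 27 * u ^ 2
        + 310879 / 3888 * t ^ 1 * u ^ 4
        + 416 / 81 * u ^ 6
        + 6829 / 7776 * t ^ 5 * u ^ 5
        + 4193 / 729 * t ^ 5 * u ^ 3
        + 24242 / 243 * t ^ 1 * u ^ 1
        + 19309 / 23328 * t ^ 5 * u ^ 6 := by
    rw [et, eu, ev]; ring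
  rw [e]; positivity

lemma P4 (s m t u v : ℝ) (ht : 0 ≤ t) (hu : 0 ≤ u) (hv : 0 ≤ v) (et : t = 3 * s - 1)
    (eu : u = m - 1) (ev : v = 1 - s * m) (hs : 0 ≤ s) (hm : 0 ≤ m) :
    0 ≤ 16 + 8 * m ^ 1 + 32 * s ^ 1 * m ^ 1 + (-8) * s ^ 2 * m ^ 1 + (-8) * m ^ 2 + 16 * s ^ 1 * m ^ 2 + (-8) * s ^ 2 * m ^ 2 + (-16) * s ^ 3 * m ^ 2 + (-4) * m ^ 3 + 40 * s ^ 2 * m ^ 3 + (-32) * s ^ 3 * m ^ 3 + (-4) * s ^ 4 * m ^ 3 + (-4) * s ^ 1 * m ^ 4 + 24 * s ^ 2 * m ^ 4 + 32 * s ^ 3 * m ^ 4 + (-8) * s ^ 4 * m ^ 4 + 4 * s ^ 5 * m ^ 4 + (-4) * s ^ 1 * m ^ 5 + (-8) * s ^ 2 * m ^ 5 + 8 * s ^ 3 * m ^ 5 + (-24) * s ^ 4 * m ^ 5 + (-4) * s ^ 5 * m ^ 5 + 2 * s ^ 2 * m ^ 6 + 14 * s ^ 3 * m ^ 6 + 22 * s ^ 4 * m ^ 6 + (-6) * s ^ 5 * m ^ 6 := by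
  have e : 16 + 8 * m ^ 1 + 32 * s ^ 1 * m ^ 1 + (-8) * s ^ 2 * m ^ 1 + (-8) * m ^ 2 + 16 * s ^ 1 * m ^ 2 + (-8) * s ^ 2 * m ^ 2 + (-16) * s ^ 3 * m ^ 2 + (-4) * m ^ 3 + 40 * s ^ 2 * m ^ 3 + (-32) * s ^ 3 * m ^ 3 + (-4) * s ^ 4 * m ^ 3 + (-4) * s ^ 1 * m ^ 4 + 24 * s ^ 2 * m ^ 4 + 32 * s ^ 3 * m ^ 4 + (-8) * s ^ 4 * m ^ 4 + 4 * s ^ 5 * m ^ 4 + (-4) * s ^ 1 * m ^ 5 + (-8) * s ^ 2 * m ^ 5 + 8 * s ^ 3 * m ^ 5 + (-24) * s ^ 4 * m ^ 5 + (-4) * s ^ 5 * m ^ 5 + 2 * s ^ 2 * m ^ 6 + 14 * s ^ 3 * m ^ 6 + 22 * s ^ 4 * m ^ 6 + (-6) * s ^ 5 * m ^ 6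
      = 342368 / 13851
        + 2824649 / 295488 * t ^ 5 * u ^ 4
        + 268592 / 13851 * t ^ 1 * u ^ 3
        + 495100 / 4617 * t ^ 1 * u ^ 5 * v ^ 1
        + 137341 / 486 * t ^ 2 * u ^ 5 * v ^ 1
        + 2326655 / 18468 * t ^ 3 * u ^ 2 * v ^ 1
        + 113207 / 27702 * u ^ 6
        + 3058523 / 295488 * t ^ 5 * u ^ 6
        + 47857 / 27702 * t ^ 5
        + 31093 / 342 * u ^ 2 * v ^ 4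
        + 84243697 / 886464 * t ^ 3 * u ^ 6
        + 171541 / 1539 * t ^ 1 * u ^ 4 * v ^ 2
        + 18376 / 1539 * v ^ 2
        + 130045 / 4617 * t ^ 1 * u ^ 6
        + 7313 / 57 * u ^ 1 * v ^ 5
        + 28802 / 513 * t ^ 2 * v ^ 3
        + 7286045 / 221616 * t ^ 5 * u ^ 3
        + 1322698 / 13851 * t ^ 2 * u ^ 3
        + 325216 / 13851 * u ^ 2
        + 17721263 / 221616 * t ^ 3 * u ^ 4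
        + 1539155 / 18468 * t ^ 3 * u ^ 3
        + 1606112 / 13851 * t ^ 1 * u ^ 1
        + 2571377 / 49248 * t ^ 4 * u ^ 6
        + 192704 / 4617 * t ^ 1 * v ^ 1
        + 323575 / 3078 * t ^ 3 * u ^ 1 * v ^ 2
        + 34417153 / 147744 * t ^ 3 * u ^ 5 * v ^ 1
        + 55951 / 1026 * t ^ 3 * v ^ 2
        + 3308 / 13851 * u ^ 4
        + 304136 / 13851 * t ^ 2 * u ^ 1
        + 2536795 / 49248 * t ^ 4 * u ^ 5 * v ^ 1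
        + 847888 / 13851 * t ^ 1 * u ^ 2
        + 547169 / 2052 * t ^ 2 * u ^ 4 * v ^ 2
        + 6491345 / 98496 * t ^ 3 * u ^ 4 * v ^ 2
        + 25285 / 3078 * t ^ 5 * u ^ 1
        + 951191 / 12312 * t ^ 4 * u ^ 2 * v ^ 1
        + 90863 / 1539 * t ^ 4 * u ^ 1 * v ^ 1
        + 475559 / 6156 * t ^ 2 * u ^ 6
        + 5 * t ^ 5 * u ^ 5
        + 903235 / 36936 * t ^ 5 * u ^ 2
        + 51157 / 4617 * u ^ 5 * v ^ 1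
        + 296435 / 8208 * t ^ 4 * u ^ 3 * v ^ 1
        + 26465 / 1539 * t ^ 4 * v ^ 1 := by
    rw [et, eu, ev]; ring
  rw [e]; positivity

lemma P5 (s m t u v : ℝ) (ht : 0 ≤ t) (hu : 0 ≤ u) (hv : 0 ≤ v) (et : t = 3 * s - 1)
    (eu : u = m - 1) (ev : v = 1 - s * m) (hs : 0 ≤ s) (hm : 0 ≤ m) :
    0 ≤ 16 + 8 * m ^ 1 + 32 * s ^ 1 * m ^ 1 + (-8) * s ^ 2 * m ^ 1 + (-8) * m ^ 2 + 16 * s ^ 1 * m ^ 2 + (-8) * s ^ 2 * m ^ 2 + (-16) * s ^ 3 * m ^ 2 + (-4) * m ^ 3 + 40 * s ^ 2 * m ^ 3 + (-32) * s ^ 3 * m ^ 3 + (-4) * s ^ 4 * m ^ 3 + (-4) * s ^ 1 * m ^ 4 + 24 * s ^ 2 * m ^ 4 + 32 * s ^ 3 * m ^ 4 + (-8) * s ^ 4 * m ^ 4 + 4 * s ^ 5 * m ^ 4 + (-4) * s ^ 1 * m ^ 5 + (-8) * s ^ 2 * m ^ 5 + 8 * s ^ 3 * m ^ 5 + (-24) * s ^ 4 * m ^ 5 + (-4) * s ^ 5 * m ^ 5 + 8 * s ^ 3 * m ^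 6 + 16 * s ^ 4 * m ^ 6 + (-8) * s ^ 5 * m ^ 6 := by
  have e : 16 + 8 * m ^ 1 + 32 * s ^ 1 * m ^ 1 + (-8) * s ^ 2 * m ^ 1 + (-8) * m ^ 2 + 16 * s ^ 1 * m ^ 2 + (-8) * s ^ 2 * m ^ 2 + (-16) * s ^ 3 * m ^ 2 + (-4) * m ^ 3 + 40 * s ^ 2 * m ^ 3 + (-32) * s ^ 3 * m ^ 3 + (-4) * s ^ 4 * m ^ 3 + (-4) * s ^ 1 * m ^ 4 + 24 * s ^ 2 * m ^ 4 + 32 * s ^ 3 * m ^ 4 + (-8) * s ^ 4 * m ^ 4 + 4 * s ^ 5 * m ^ 4 + (-4) * s ^ 1 * m ^ 5 + (-8) * s ^ 2 * m ^ 5 + 8 * s ^ 3 * m ^ 5 + (-24) * s ^ 4 * m ^ 5 + (-4) * s ^ 5 * m ^ 5 + 8 * s ^ 3 * m ^ 6 + 16 * s ^ 4 * m ^ 6 + (-8) * s ^ 5 * m ^ 6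
      = 1796 / 45 * t ^ 1 * u ^ 3 * v ^ 2
        + 9682 / 405 * t ^ 1 * u ^ 4 * v ^ 1
        + 2 * t ^ 5
        + 41921 / 972 * t ^ 5 * u ^ 3
        + 9466 / 135 * t ^ 3 * u ^ 1 * v ^ 2
        + 25657 / 432 * t ^ 5 * u ^ 5
        + 2527 / 45 * t ^ 3 * u ^ 3 * v ^ 1
        + 346 / 27 * t ^ 4 * v ^ 1
        + 1496 / 45 * u ^ 1 * v ^ 3
        + 1378 / 45 * u ^ 4 * v ^ 2
        + 1498 / 405 * t ^ 3 * u ^ 6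
        + 526807 / 19440 * t ^ 5 * u ^ 6
        + 544 / 27 * t ^ 3 * v ^ 2
        + 8708 / 1215 * t ^ 2 * u ^ 6
        + 848 / 1215 * t ^ 2 * u ^ 3
        + 4294 / 1215 * t ^ 1 * u ^ 6
        + 23087 / 405 * t ^ 4 * u ^ 1 * v ^ 1
        + 159584 / 1215 * t ^ 1 * u ^ 1
        + 124763 / 1620 * t ^ 4 * u ^ 3 * v ^ 1
        + 30914 / 405 * t ^ 3 * u ^ 2 * v ^ 1
        + 16127 / 405 * t ^ 3 * u ^ 5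
        + 26656 / 1215 * t ^ 1 * u ^ 3
        + 15728 / 405 * t ^ 2 * u ^ 1 * v ^ 1
        + 481 / 27 * t ^ 2 * u ^ 5
        + 13111 / 1215 * t ^ 5 * u ^ 1
        + 3574 / 45 * u ^ 3 * v ^ 3
        + 35071 / 360 * t ^ 4 * u ^ 4 * v ^ 1
        + 176029 / 6480 * t ^ 4 * u ^ 6
        + 63193 / 810 * t ^ 4 * u ^ 2 * v ^ 1
        + 1792 / 27 * v ^ 2
        + 37315 / 648 * t ^ 5 * u ^ 4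
        + 832 / 27 * t ^ 2 * v ^ 1
        + 109232 / 1215 * t ^ 1 * u ^ 2
        + 64703 / 2430 * t ^ 5 * u ^ 2
        + 527447 / 6480 * t ^ 4 * u ^ 5 * v ^ 1
        + 26696 / 405 * t ^ 3 * u ^ 4 * v ^ 1
        + 4268 / 45 * u ^ 2 * v ^ 3
        + 8528 / 135 * u ^ 1 * v ^ 2
        + 7843 / 405 * t ^ 2 * u ^ 4 * v ^ 1
        + 2048 / 27 * t ^ 1 * v ^ 1 := by
    rw [et, eu, ev]; ring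
  rw [e]; positivity

/-- the main polynomial inequality -/
lemma main (s m x : ℝ) (hs : 1 ≤ 3 * s) (hm : 1 ≤ m) (hsm : s * m ≤ 1) (hx0 : 0 ≤ x) (hx1 : x ≤ 1) :
    m * (1 + s) ^ 2 * ((1 + x * s * m ^ 2) * (2 * (1 + s * x * m) * (1 + x * m))
        * ((1 + x) * (2 + (1 + 3 * s) * x * m))
      - x * s * m * (2 * (1 + s * x * m) * (1 + x * m)) ^ 2)
      ≤ (s * m ^ 2 + 1) ^ 2 * ((1 + x) * (2 + (1 + 3 * s) * x * m)) ^ 2 := by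
  have h0 := P0 s m (3 * s - 1) (m - 1) (1 - s * m) (by linarith) (by linarith) (by linarith) rfl rfl rfl
    (by linarith) (by linarith)
  have h1 := P1 s m (3 * s - 1) (m - 1) (1 - s * m) (by linarith) (by linarith) (by linarith) rfl rfl rfl
    (by linarith) (by linarith)
  have h2 := P2 s m (3 * s - 1) (m - 1) (1 - s * m) (by linarith) (by linarith) (by linarith) rfl rfl rfl
    (by linarith) (by linarith)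
  have h3 := P3 s m (3 * s - 1) (m - 1) (1 - s * m) (by linarith) (by linarith) (by linarith) rfl rfl rfl
    (by linarith) (by linarith)
  have h4 := P4 s m (3 * s - 1) (m - 1) (1 - s * m) (by linarith) (by linarith) (by linarith) rfl rfl rfl
    (by linarith) (by linarith)
  have h5 := P5 s m (3 * s - 1) (m - 1) (1 - s * m) (by linarith) (by linarith) (by linarith) rfl rfl rfl
    (by linarith) (by linarith)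
  have a0 : 0 ≤ x ^ 0 - x ^ 1 := by simpa using hx1
  have a1 : 0 ≤ x ^ 1 - x ^ 2 := by nlinarith
  have hx2 : (0:ℝ) ≤ x ^ 2 := by positivity
  have hx3 : (0:ℝ) ≤ x ^ 3 := by positivity
  have hx4 : (0:ℝ) ≤ x ^ 4 := by positivity
  have a2 : 0 ≤ x ^ 2 - x ^ 3 := by
    have e : x ^ 2 - x ^ 3 = x ^ 2 * (1 - x) := by ring
    rw [e]; exact mul_nonneg hx2 (by linarith)
  have a3 : 0 ≤ x ^ 3 - x ^ 4 := by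
    have e : x ^ 3 - x ^ 4 = x ^ 3 * (1 - x) := by ring
    rw [e]; exact mul_nonneg hx3 (by linarith)
  have a4 : 0 ≤ x ^ 4 - x ^ 5 := by
    have e : x ^ 4 - x ^ 5 = x ^ 4 * (1 - x) := by ring
    rw [e]; exact mul_nonneg hx4 (by linarith)
  have b0 := mul_nonneg h0 a0
  have b1 := mul_nonneg h1 a1
  have b2 := mul_nonneg h2 a2
  have b3 := mul_nonneg h3 a3
  have b4 := mul_nonneg h4 a4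
  have b5 := mul_nonneg h5 (by positivity : (0:ℝ) ≤ x ^ 5)
  have key : (s * m ^ 2 + 1) ^ 2 * ((1 + x) * (2 + (1 + 3 * s) * x * m)) ^ 2
      - m * (1 + s) ^ 2 * ((1 + x * s * m ^ 2) * (2 * (1 + s * x * m) * (1 + x * m))
        * ((1 + x) * (2 + (1 + 3 * s) * x * m))
      - x * s * m * (2 * (1 + s * x * m) * (1 + x * m)) ^ 2)
      = (4 + (-4) * m ^ 1 + (-8) * s ^ 1 * m ^ 1 + (-4) * s ^ 2 * m ^ 1 + 8 * s ^ 1 * m ^ 2 + 4 * s ^ 2 * m ^ 4) * (x ^ 0 - x ^ 1) + (12 + (-4) * m ^ 1 + (-4) * s ^ 1 * m ^ 1 + (-8) * s ^ 2 * m ^ 1 + (-6) * m ^ 2 + 6 * s ^ 1 * m ^ 2 + (-18) * s ^ 2 * m ^ 2 + (-6) * s ^ 3 * m ^ 2 + 4 * s ^ 1 * m ^ 3 + 16 * s ^ 2 * m ^ 3 + (-4) * s ^ 3 * m ^ 3 + 12 * s ^ 2 * m ^ 4 + 4 * s ^ 2 * m ^ 5 + 12 * s ^ 3 * m ^ 5) * (x ^ 1 - x ^ 2) + (16 + 4 *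 m ^ 1 + 20 * s ^ 1 * m ^ 1 + (-8) * s ^ 2 * m ^ 1 + (-11) * m ^ 2 + (-2) * s ^ 1 * m ^ 2 + (-35) * s ^ 2 * m ^ 2 + (-16) * s ^ 3 * m ^ 2 + (-2) * m ^ 3 + 8 * s ^ 1 * m ^ 3 + 48 * s ^ 2 * m ^ 3 + (-8) * s ^ 3 * m ^ 3 + 2 * s ^ 4 * m ^ 3 + (-4) * s ^ 1 * m ^ 4 + 6 * s ^ 2 * m ^ 4 + (-8) * s ^ 3 * m ^ 4 + (-10) * s ^ 4 * m ^ 4 + 12 * s ^ 2 * m ^ 5 + 36 * s ^ 3 * m ^ 5 + 1 * s ^ 2 * m ^ 6 + 6 * s ^ 3 * m ^ 6 + 9 * s ^ 4 * m ^ 6) * (x ^ 2 - x ^ 3) + (16 + 8 * m ^ 1 + 32 * s ^ 1 * m ^ 1 + (-8) * s ^ 2 * m ^ 1 + (-9) * m ^ 2 + 10 * s ^ 1 * m ^ 2 + (-17) * s ^ 2 * m ^ 2 + (-16) * s ^ 3 * m ^ 2 + (-4) * m ^ 3 + 40 * s ^ 2 * m ^ 3 + (-32) * s ^ 3 * m ^ 3 + (-4) * s ^ 4 * m ^ 3 + (-4) * s ^ 1 * m ^ 4 + 22 * s ^ 2 * m ^ 4 + 28 * s ^ 3 * m ^ 4 + (-2) * s ^ 4 * m ^ 4 + 4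 * s ^ 5 * m ^ 4 + (-2) * s ^ 1 * m ^ 5 + 16 * s ^ 3 * m ^ 5 + (-24) * s ^ 4 * m ^ 5 + (-6) * s ^ 5 * m ^ 5 + 3 * s ^ 2 * m ^ 6 + 18 * s ^ 3 * m ^ 6 + 27 * s ^ 4 * m ^ 6) * (x ^ 3 - x ^ 4) + (16 + 8 * m ^ 1 + 32 * s ^ 1 * m ^ 1 + (-8) * s ^ 2 * m ^ 1 + (-8) * m ^ 2 + 16 * s ^ 1 * m ^ 2 + (-8) * s ^ 2 * m ^ 2 + (-16) * s ^ 3 * m ^ 2 + (-4) * m ^ 3 + 40 * s ^ 2 * m ^ 3 + (-32) * s ^ 3 * m ^ 3 + (-4) * s ^ 4 * m ^ 3 + (-4) * s ^ 1 * m ^ 4 + 24 * s ^ 2 * m ^ 4 + 32 * s ^ 3 * m ^ 4 + (-8) * s ^ 4 * m ^ 4 + 4 * s ^ 5 * m ^ 4 + (-4) * s ^ 1 * m ^ 5 + (-8) * s ^ 2 * m ^ 5 + 8 * s ^ 3 * m ^ 5 + (-24) * s ^ 4 * m ^ 5 + (-4) * s ^ 5 * m ^ 5 + 2 * s ^ 2 * m ^ 6 + 14 * s ^ 3 * m ^ 6 + 22 * s ^ 4 * m ^ 6 + (-6) * s ^ 5 * m ^ 6) * (x ^ 4 - x ^ 5) + (16 + 8 * m ^ 1 + 32 * s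 ^ 1 * m ^ 1 + (-8) * s ^ 2 * m ^ 1 + (-8) * m ^ 2 + 16 * s ^ 1 * m ^ 2 + (-8) * s ^ 2 * m ^ 2 + (-16) * s ^ 3 * m ^ 2 + (-4) * m ^ 3 + 40 * s ^ 2 * m ^ 3 + (-32) * s ^ 3 * m ^ 3 + (-4) * s ^ 4 * m ^ 3 + (-4) * s ^ 1 * m ^ 4 + 24 * s ^ 2 * m ^ 4 + 32 * s ^ 3 * m ^ 4 + (-8) * s ^ 4 * m ^ 4 + 4 * s ^ 5 * m ^ 4 + (-4) * s ^ 1 * m ^ 5 + (-8) * s ^ 2 * m ^ 5 + 8 * s ^ 3 * m ^ 5 + (-24) * s ^ 4 * m ^ 5 + (-4) * s ^ 5 * m ^ 5 + 8 * s ^ 3 * m ^ 6 + 16 * s ^ 4 * m ^ 6 + (-8) * s ^ 5 * m ^ 6) * x ^ 5 := by ring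
  have : 0 ≤ (s * m ^ 2 + 1) ^ 2 * ((1 + x) * (2 + (1 + 3 * s) * x * m)) ^ 2
      - m * (1 + s) ^ 2 * ((1 + x * s * m ^ 2) * (2 * (1 + s * x * m) * (1 + x * m))
        * ((1 + x) * (2 + (1 + 3 * s) * x * m))
      - x * s * m * (2 * (1 + s * x * m) * (1 + x * m)) ^ 2) := by
    rw [key]; exact add_nonneg (add_nonneg (add_nonneg (add_nonneg (add_nonneg b0 b1) b2) b3) b4) b5
  linarith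

end Pool.Agent.Run7.h734.CM
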